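import Pool.Agent.W154.STK.Phase2
import Pool.Agent.H488R3.Real

set_option autoImplicit false

namespace Pool.Agent.W154.STK

open Finset
open scoped Classical
open Pool.Agent.H488R3

variable {V W : Type} [Fintype V] [Fintype W]

lemma sum_equiv_any {A B : Type} (iA : Fintype A) (iB : Fintype B) (e : A ≃ B) (f : A → ℝ)
    (g : B → ℝ) (h : ∀ a, f a = g (e a)) :
    @Finset.sum A ℝ _ (@univ A iA) f = @Finset.sum B ℝ _ (@univ B iB) g :=
  Fintype.sum_equiv e f g h

lemma tval_sum (G : SimpleGraph V) (H : SimpleGraph W) (w : Cls → ℝ) :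
    tval (G ⊕g H) w = tval G w * tval H w := by
  unfold tval
  set A : (V → Cls) → ℝ := fun c => if (∀ a b, G.Adj a b → Cls.ok (c a) (c b)) then ∏ v, w (c v) else 0 with hA
  set B : (W → Cls) → ℝ := fun c => if (∀ a b, H.Adj a b → Cls.ok (c a) (c b)) then ∏ v, w (c v) else 0 with hB
  have key : ∀ p : (V → Cls) × (W → Cls), A p.1 * B p.2 = A p.1 * B p.2 := fun _ => rfl
  rw [Finset.sum_mul_sum]
  have h0 : (∑ i : V → Cls, ∑ j : W → Cls, A i * B j) = ∑ p : (V → Cls) × (W → Cls), A p.1 * B p.2 :=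
    (Fintype.sum_prod_type (fun p : (V → Cls) × (W → Cls) => A p.1 * B p.2)).symm
  refine Eq.trans ?_ h0.symm
  apply sum_equiv_any _ _ (Equiv.sumArrowEquivProdArrow V W Cls)
  intro c
  have h1 : (∀ a b, (G ⊕g H).Adj a b → Cls.ok (c a) (c b)) ↔
      (∀ a b, G.Adj a b → Cls.ok (c (Sum.inl a)) (c (Sum.inl b))) ∧
      (∀ a b, H.Adj a b → Cls.ok (c (Sum.inr a)) (c (Sum.inr b))) := by
    constructor
    · intro h
      exact ⟨fun a b hab => h _ _ (by simpa using hab), fun a b hab => h _ _ (by simpa using hab)⟩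
    · rintro ⟨h1, h2⟩ a b hab
      rcases a with a | a <;> rcases b with b | b
      · exact h1 a b (by simpa using hab)
      · simp at hab
      · simp at hab
      · exact h2 a b (by simpa using hab)
  show (if (∀ a b, (G ⊕g H).Adj a b → Cls.ok (c a) (c b)) then ∏ v, w (c v) else 0) =
    (if (∀ a b, G.Adj a b → Cls.ok (c (Sum.inl a)) (c (Sum.inl b))) then ∏ v, w (c (Sum.inl v)) else 0) *
    (if (∀ a b, H.Adj a b → Cls.ok (c (Sum.inr a)) (c (Sum.inr b))) then ∏ v, w (c (Sum.inr v)) else 0)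
  rw [Fintype.prod_sum_type]
  by_cases h2 : ∀ a b, G.Adj a b → Cls.ok (c (Sum.inl a)) (c (Sum.inl b))
  · by_cases h3 : ∀ a b, H.Adj a b → Cls.ok (c (Sum.inr a)) (c (Sum.inr b))
    · rw [if_pos (h1.2 ⟨h2, h3⟩), if_pos h2, if_pos h3]
    · rw [if_neg (fun h => h3 (h1.1 h).2), if_neg h3, mul_zero]
  · rw [if_neg (fun h => h2 (h1.1 h).1), if_neg h2, zero_mul]

lemma sum_Cls (f : Cls → ℝ) : ∑ c : Cls, f c = f .Y + f .R + f .B := by
  have : (univ : Finset Cls) = {Cls.Y, Cls.R, Cls.B} := by ext c; cases c <;> simp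
  rw [this]
  simp
  ring

lemma sum_pow_fun (a : ℕ) (p : Cls → Prop) (w : Cls → ℝ) :
    (∑ c : Fin a → Cls, if (∀ i, p (c i)) then ∏ i, w (c i) else 0) =
      (∑ x : Cls, if p x then w x else 0) ^ a := by
  have h1 : ∀ c : Fin a → Cls, (if (∀ i, p (c i)) then ∏ i, w (c i) else 0) =
      ∏ i, (if p (c i) then w (c i) else 0) := by
    intro c
    by_cases h : ∀ i, p (c i)
    · rw [if_pos h]
      exact prod_congr rfl fun i _ => by rw [if_pos (h i)]
    · rw [if_neg h]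
      push Not at h
      obtain ⟨i, hi⟩ := h
      exact (prod_eq_zero (mem_univ i) (by rw [if_neg hi])).symm
  rw [Fintype.sum_pow]
  exact sum_equiv_any _ _ (Equiv.refl _) _ _ (fun c => h1 c)

/-- classes allowed next to all of `c` -/
lemma inner (a b : ℕ) (w : Cls → ℝ) (hw : w .Y + w .R + w .B = 1) (c : Fin a → Cls) :
    (∑ d : Fin b → Cls, if (∀ i j, Cls.ok (c i) (d j)) then ∏ j, w (d j) else 0) =
      w .R ^ b + (if ∀ i, c i ≠ Cls.B then (w .Y + w .R) ^ b - w .R ^ b else 0) +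
        (if ∀ i, c i = Cls.R then 1 - (w .Y + w .R) ^ b else 0) := by
  have h0 : (∑ d : Fin b → Cls, if (∀ i j, Cls.ok (c i) (d j)) then ∏ j, w (d j) else 0) =
      (∑ x : Cls, if (∀ i, Cls.ok (c i) x) then w x else 0) ^ b := by
    have h9 := sum_pow_fun b (fun x => ∀ i, Cls.ok (c i) x) w
    refine Eq.trans ?_ (h9.trans ?_)
    swap
    · congr 1
      exact sum_congr rfl fun x _ => by congr
    apply sum_equiv_any _ _ (Equiv.refl _)
    intro d
    have : (∀ i j, Cls.ok (c i) (d j)) ↔ (∀ j i, Cls.ok (c i) (d j)) := forall_comm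
    by_cases h : ∀ i j, Cls.ok (c i) (d j)
    · rw [if_pos h]; exact (if_pos (this.1 h)).symm
    · rw [if_neg h]; exact (if_neg (fun h' => h (this.2 h'))).symm
  rw [h0, sum_Cls]
  have hR : ∀ i, Cls.ok (c i) Cls.R := fun i => by cases c i <;> trivial
  rw [if_pos hR]
  have hY : (∀ i, Cls.ok (c i) Cls.Y) ↔ ∀ i, c i ≠ Cls.B := by
    refine forall_congr' fun i => ?_
    cases c i <;> simp [Cls.ok]
  have hB : (∀ i, Cls.ok (c i) Cls.B) ↔ ∀ i, c i = Cls.R := by
    refine forall_congr' fun i => ?_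
    cases c i <;> simp [Cls.ok]
  by_cases h1 : ∀ i, c i = Cls.R
  · have h2 : ∀ i, c i ≠ Cls.B := fun i => by rw [h1 i]; simp
    rw [if_pos (hY.2 h2), if_pos (hB.2 h1), if_pos h1, if_pos h2, hw]
    ring
  · rw [if_neg (fun h => h1 (hB.1 h)), if_neg h1]
    by_cases h2 : ∀ i, c i ≠ Cls.B
    · rw [if_pos (hY.2 h2), if_pos h2]; ring
    · rw [if_neg (fun h => h2 (hY.1 h)), if_neg h2]; ring

lemma tval_biclique (a b : ℕ) (w : Cls → ℝ) (hw : w .Y + w .R + w .B = 1) :
    tval (completeBipartiteGraph (Fin a) (Fin b)) w =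
      (w .Y + w .R) ^ (a + b) + w .R ^ a * (1 - (w .Y + w .R) ^ b) +
        w .R ^ b * (1 - (w .Y + w .R) ^ a) := by
  set z := w .Y + w .R with hz
  have h1 : tval (completeBipartiteGraph (Fin a) (Fin b)) w =
      ∑ c : Fin a → Cls, ∑ d : Fin b → Cls,
        if (∀ i j, Cls.ok (c i) (d j)) then (∏ i, w (c i)) * ∏ j, w (d j) else 0 := by
    unfold tval
    refine Eq.trans ?_ (Fintype.sum_prod_type (fun p : (Fin a → Cls) × (Fin b → Cls) =>
      if (∀ i j, Cls.ok (p.1 i) (p.2 j)) then (∏ i, w (p.1 i)) * ∏ j, w (p.2 j) else 0))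
    apply sum_equiv_any _ _ (Equiv.sumArrowEquivProdArrow (Fin a) (Fin b) Cls)
    intro c
    show (if (∀ x y, (completeBipartiteGraph (Fin a) (Fin b)).Adj x y → Cls.ok (c x) (c y))
      then ∏ v, w (c v) else 0) =
      (if (∀ i j, Cls.ok (c (Sum.inl i)) (c (Sum.inr j))) then
        (∏ i, w (c (Sum.inl i))) * ∏ j, w (c (Sum.inr j)) else 0)
    have h2 : (∀ x y, (completeBipartiteGraph (Fin a) (Fin b)).Adj x y → Cls.ok (c x) (c y)) ↔
        (∀ i j, Cls.ok (c (Sum.inl i)) (c (Sum.inr j))) := by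
      constructor
      · intro h i j
        exact h _ _ (by simp)
      · intro h x y hxy
        rcases x with x | x <;> rcases y with y | y
        · simp at hxy
        · exact h x y
        · exact Cls.ok_symm (h y x)
        · simp at hxy
    rw [Fintype.prod_sum_type]
    by_cases h3 : ∀ i j, Cls.ok (c (Sum.inl i)) (c (Sum.inr j))
    · rw [if_pos (h2.2 h3), if_pos h3]
    · rw [if_neg (fun h => h3 (h2.1 h)), if_neg h3]
  have h2 : ∀ c : Fin a → Cls, (∑ d : Fin b → Cls,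
        if (∀ i j, Cls.ok (c i) (d j)) then (∏ i, w (c i)) * ∏ j, w (d j) else 0) =
      w .R ^ b * (∏ i, w (c i)) + (z ^ b - w .R ^ b) * (if ∀ i, c i ≠ Cls.B then ∏ i, w (c i) else 0) +
        (1 - z ^ b) * (if ∀ i, c i = Cls.R then ∏ i, w (c i) else 0) := by
    intro c
    have h3 : (∑ d : Fin b → Cls,
        if (∀ i j, Cls.ok (c i) (d j)) then (∏ i, w (c i)) * ∏ j, w (d j) else 0) =
        (∏ i, w (c i)) * ∑ d : Fin b → Cls, if (∀ i j, Cls.ok (c i) (d j)) then ∏ j, w (d j) else 0 := by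
      rw [mul_sum]
      refine sum_congr rfl fun d _ => ?_
      split_ifs
      · rfl
      · rw [mul_zero]
    rw [h3, inner a b w hw c]
    by_cases h4 : ∀ i, c i = Cls.R
    · have h5 : ∀ i, c i ≠ Cls.B := fun i => by rw [h4 i]; simp
      rw [if_pos h4, if_pos h5, if_pos h4, if_pos h5]; ring
    · rw [if_neg h4, if_neg h4]
      by_cases h5 : ∀ i, c i ≠ Cls.B
      · rw [if_pos h5, if_pos h5]; ring
      · rw [if_neg h5, if_neg h5]; ring
  rw [h1, sum_congr rfl fun c _ => h2 c, sum_add_distrib, sum_add_distrib, ← mul_sum, ← mul_sum,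
    ← mul_sum]
  have e1 : (∑ c : Fin a → Cls, ∏ i, w (c i)) = 1 := by
    have := sum_pow_fun a (fun _ => True) w
    simp only [forall_const, if_true, implies_true] at this
    rw [this, sum_Cls, hw, one_pow]
  have e2 : (∑ c : Fin a → Cls, if ∀ i, c i ≠ Cls.B then ∏ i, w (c i) else 0) = z ^ a := by
    have h := sum_pow_fun a (fun x => x ≠ Cls.B) w
    refine Eq.trans ?_ (h.trans ?_)
    · exact sum_congr rfl fun c _ => by congr
    · rw [sum_Cls]
      simp [hz]
  have e3 : (∑ c : Fin a → Cls, if ∀ i, c i = Cls.R then ∏ i, w (c i) else 0) = w .R ^ a := by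
    have h := sum_pow_fun a (fun x => x = Cls.R) w
    refine Eq.trans ?_ (h.trans ?_)
    · exact sum_congr rfl fun c _ => by congr
    · rw [sum_Cls]
      simp
  rw [e1, e2, e3]
  ring

/-- the graph `K_{2,8} ∪ K_{8,8}` -/
def GG : SimpleGraph ((Fin 2 ⊕ Fin 8) ⊕ (Fin 8 ⊕ Fin 8)) :=
  completeBipartiteGraph (Fin 2) (Fin 8) ⊕g completeBipartiteGraph (Fin 8) (Fin 8)

theorem tval_GG (w : Cls → ℝ) (hw : w .Y + w .R + w .B = 1) :
    tval GG w = Fp (w .Y + w .R) (w .R) := by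
  unfold GG
  rw [tval_sum, tval_biclique 2 8 w hw, tval_biclique 8 8 w hw]
  unfold Fp FA FB
  ring

theorem egy_eq (w : Cls → ℝ) (hw : w .Y + w .R + w .B = 1) :
    egy w = be (w .Y + w .R) (w .R) := by
  unfold egy be
  have : w .B = 1 - w .Y - w .R := by linarith
  rw [this]; ring

/-- weights from `(z, r)` -/
def wzr (z r : ℝ) : Cls → ℝ
  | .Y => z - r
  | .R => r
  | .B => 1 - z

theorem wzr_mem {β z r : ℝ} (h : On β z r) : wzr z r ∈ KK ∧ egy (wzr z r) = β ∧
    tval GG (wzr z r) = Fp z r := by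
  obtain ⟨h0, h1, h2, h3⟩ := h
  have hs : wzr z r .Y + wzr z r .R + wzr z r .B = 1 := by simp only [wzr]; ring
  refine ⟨⟨?_, by simp only [wzr]; ring⟩, ?_, ?_⟩
  · intro c
    cases c <;> simp only [wzr] <;> linarith
  · rw [egy_eq _ hs, ← h3]
    simp only [wzr]
    congr 1; ring
  · rw [tval_GG _ hs]
    simp only [wzr]
    congr 1; ring

theorem on_of_mem {w : Cls → ℝ} (hw : w ∈ KK) : On (egy w) (w .Y + w .R) (w .R) ∧
    tval GG w = Fp (w .Y + w .R) (w .R) := by
  obtain ⟨h0, h1⟩ := hw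
  have hs : w .Y + w .R + w .B = 1 := by linarith
  refine ⟨⟨h0 _, by linarith [h0 .Y], by linarith [h0 .B], (egy_eq w hs).symm⟩, tval_GG w hs⟩

end Pool.Agent.W154.STK
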