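import Pool.Agent.W154.STK.Seq
import Pool.Agent.W154.STK.Tval

set_option autoImplicit false

namespace Pool.Agent.W154.STK

open Finset Filter Topology Asymptotics
open scoped Classical
open Pool.Agent.H488R3

lemma Fp_mono_z {z z' r : ℝ} (h0 : 0 ≤ r) (h1 : r ≤ z) (h2 : z ≤ z') (h3 : z' ≤ 1) :
    Fp z r ≤ Fp z' r := by
  have hz : 0 ≤ z := h0.trans h1
  have a1 : FA z r ≤ FA z' r := by
    rw [FA_eq, FA_eq]
    have b1 : z ^ 2 - r ^ 2 ≤ z' ^ 2 - r ^ 2 := sub_le_sub_right (pow_le_pow_left₀ hz h2 2) _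
    have b2 : z ^ 8 - r ^ 8 ≤ z' ^ 8 - r ^ 8 := sub_le_sub_right (pow_le_pow_left₀ hz h2 8) _
    have b3 : 0 ≤ z ^ 2 - r ^ 2 := sub_nonneg.2 (pow_le_pow_left₀ h0 h1 2)
    have b4 : 0 ≤ z ^ 8 - r ^ 8 := sub_nonneg.2 (pow_le_pow_left₀ h0 h1 8)
    have := mul_le_mul b1 b2 b4 (b3.trans b1)
    linarith
  have a2 : FB z r ≤ FB z' r := by
    rw [FB_eq, FB_eq]
    have b2 : z ^ 8 - r ^ 8 ≤ z' ^ 8 - r ^ 8 := sub_le_sub_right (pow_le_pow_left₀ hz h2 8) _
    have b4 : 0 ≤ z ^ 8 - r ^ 8 := sub_nonneg.2 (pow_le_pow_left₀ h0 h1 8)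
    have := pow_le_pow_left₀ b4 b2 2
    linarith
  unfold Fp
  exact mul_le_mul a1 a2 (FB_nonneg h0 h1 (h2.trans h3)) (FA_nonneg h0 (h1.trans h2) h3)

lemma on_up {β β' z r : ℝ} (h : On β' z r) (h1 : β' ≤ β) (h2 : β ≤ 1) :
    ∃ z', z ≤ z' ∧ On β z' r := by
  obtain ⟨a0, a1, a2, a3⟩ := h
  have hc : ContinuousOn (fun t => be t r) (Set.Icc z 1) := by
    unfold be; fun_prop
  have hiv := intermediate_value_Icc a2 hc
  have hb : β ∈ Set.Icc (be z r) (be 1 r) := by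
    refine ⟨by rw [a3]; exact h1, ?_⟩
    have : be 1 r = 1 := by unfold be; ring
    rw [this]; exact h2
  obtain ⟨z', ⟨h3, h4⟩, h5⟩ := hiv hb
  exact ⟨z', h3, a0, a1.trans h3, h4, h5⟩

/-- every graph is below the `T`-curve -/
theorem hd_le {β F : ℝ} (hβ : β ≤ 1) (hF : ∀ z r, On β z r → Fp z r ≤ F) {n : ℕ} (hn : 0 < n)
    (H : SimpleGraph (Fin n)) (he : ed n H ≤ β) : hd GG n H ≤ F := by
  have : Nonempty (Fin n) := ⟨⟨0, hn⟩⟩
  obtain ⟨w, hw, h1, h2⟩ := mem_CC GG H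
  rw [Fintype.card_fin] at h1 h2
  obtain ⟨h3, h4⟩ := on_of_mem hw
  rw [h1] at h3
  obtain ⟨z', h5, h6⟩ := on_up (β := β) h3 he hβ
  obtain ⟨a0, a1, a2, a3⟩ := h3
  refine le_trans h2 ?_
  rw [h4]
  exact (Fp_mono_z a0 a1 h5 h6.2.2.1).trans (hF _ _ h6)

lemma be_scale {c z r : ℝ} (hc0 : 0 < c) (hc1 : c < 1) (h0 : 0 ≤ r) (h1 : r ≤ z) (h2 : z ≤ 1)
    (hb : 0 < be z r) : be (c * z) (c * r) < be z r := by
  have h3 : be z r - be (c * z) (c * r) =
      (1 - c) * ((1 + c) * (z - r) ^ 2 + (2 * r - (1 + c) * r ^ 2)) := by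
    unfold be; ring
  have hr1 : r ≤ 1 := h1.trans h2
  have h4 : 0 ≤ 2 * r - (1 + c) * r ^ 2 := by
    have : r ^ 2 ≤ r := by nlinarith
    nlinarith
  have h5 : 0 < (1 + c) * (z - r) ^ 2 + (2 * r - (1 + c) * r ^ 2) := by
    rcases h1.lt_or_eq with h | h
    · have : 0 < (1 + c) * (z - r) ^ 2 := by
        apply mul_pos (by linarith)
        have : 0 < z - r := by linarith
        positivity
      linarith
    · subst h
      have hr : 0 < r := by
        rcases h0.lt_or_eq with h | h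
        · exact h
        · rw [← h] at hb
          unfold be at hb
          norm_num at hb
      have h6 : 0 < 2 * r - (1 + c) * r ^ 2 := by
        have : 2 * r - (1 + c) * r ^ 2 = r * (2 - (1 + c) * r) := by ring
        rw [this]
        apply mul_pos hr
        nlinarith
      have : (1 + c) * (r - r) ^ 2 = 0 := by ring
      linarith
  have := mul_pos (by linarith : 0 < 1 - c) h5
  linarith

/-- the (normalised) extremal number converges to the maximum over `T`-weights -/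
theorem ex_lim {β : ℝ} (hβ0 : 0 < β) (hβ : β ≤ 1) {z r : ℝ} (hon : On β z r)
    (hmax : ∀ z' r', On β z' r' → Fp z' r' ≤ Fp z r) {E : ℕ → ℕ}
    (hE1 : ∀ n, ∃ H : SimpleGraph (Fin n), H.edgeSet.ncard ≤ ⌊β * (n:ℝ) ^ 2 / 2⌋₊ ∧
      E n = H.copyCount GG)
    (hE2 : ∀ n, ∀ H : SimpleGraph (Fin n), H.edgeSet.ncard ≤ ⌊β * (n:ℝ) ^ 2 / 2⌋₊ →
      H.copyCount GG ≤ E n) :
    Tendsto (fun n : ℕ => (E n : ℝ) * (Nat.card (GG ≃g GG) : ℝ) / (n : ℝ) ^ 26) atTop
      (𝓝 (Fp z r)) := by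
  have hcard : Fintype.card ((Fin 2 ⊕ Fin 8) ⊕ (Fin 8 ⊕ Fin 8)) = 26 := by simp
  rw [tendsto_order]
  constructor
  · intro a ha
    obtain ⟨h0, h1, h2, h3⟩ := hon
    have hcont : Continuous (fun c : ℝ => Fp (c * z) (c * r)) := by
      unfold Fp FA FB; fun_prop
    have ht : Tendsto (fun c : ℝ => Fp (c * z) (c * r)) (𝓝[<] 1) (𝓝 (Fp z r)) := by
      have h9 := (hcont.tendsto 1).mono_left (nhdsWithin_le_nhds (s := Set.Iio (1:ℝ)))
      simp only [one_mul] at h9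
      exact h9
    have e1 : ∀ᶠ c in 𝓝[<] (1:ℝ), a < Fp (c * z) (c * r) := ht.eventually_const_lt ha
    have e2 : ∀ᶠ c in 𝓝[<] (1:ℝ), c ∈ Set.Ioo (0:ℝ) 1 := Ioo_mem_nhdsLT one_pos
    obtain ⟨c, hc1, hc2, hc3⟩ := (e1.and e2).exists
    have hon' : On (be (c * z) (c * r)) (c * z) (c * r) := by
      refine ⟨by positivity, mul_le_mul_of_nonneg_left h1 hc2.le, ?_, rfl⟩
      have : c * z ≤ 1 * 1 := mul_le_mul hc3.le h2 (h0.trans h1) (by norm_num)
      linarith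
    obtain ⟨hw, he, htv⟩ := wzr_mem hon'
    set w := wzr (c * z) (c * r) with hwdef
    have hbe : be (c * z) (c * r) < β := by
      rw [← h3]
      exact be_scale hc2 hc3 h0 h1 h2 (by rw [h3]; exact hβ0)
    have l1 : ∀ᶠ n : ℕ in atTop, ed n (HG (clN w n)) < β := by
      have := egy_tendsto hw
      rw [he] at this
      exact this.eventually_lt_const hbe
    have l2 : ∀ᶠ n : ℕ in atTop, a < cd GG n (HG (clN w n)) := by
      have h4 : Tendsto (fun n => hd GG n (HG (clN w n))) atTop (𝓝 (tval GG w)) := hom_tendsto hw GG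
      have := cd_tendsto GG h4
      rw [htv] at this
      exact this.eventually_const_lt hc1
    filter_upwards [l1, l2, eventually_gt_atTop 0] with n m1 m2 hn
    refine lt_of_lt_of_le m2 ?_
    unfold cd
    rw [hcard]
    apply div_le_div_of_nonneg_right _ (by positivity)
    apply mul_le_mul_of_nonneg_right _ (by positivity)
    have hn' : (0:ℝ) < n := by exact_mod_cast hn
    have m3 : (HG (clN w n)).edgeSet.ncard ≤ ⌊β * (n:ℝ) ^ 2 / 2⌋₊ := by
      apply Nat.le_floor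
      rw [ed_ncard, div_lt_iff₀ (by positivity)] at m1
      linarith
    exact_mod_cast hE2 n _ m3
  · intro b hb
    filter_upwards [eventually_gt_atTop 0] with n hn
    refine lt_of_le_of_lt ?_ hb
    obtain ⟨H, hH1, hH2⟩ := hE1 n
    have hn' : (0:ℝ) < n := by exact_mod_cast hn
    have m1 : ed n H ≤ β := by
      rw [ed_ncard, div_le_iff₀ (by positivity)]
      have h4 : (H.edgeSet.ncard : ℝ) ≤ (⌊β * (n:ℝ) ^ 2 / 2⌋₊ : ℝ) := by exact_mod_cast hH1
      have h5 : (⌊β * (n:ℝ) ^ 2 / 2⌋₊ : ℝ) ≤ β * (n:ℝ) ^ 2 / 2 := Nat.floor_le (by positivity)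
      linarith
    have m2 := (cd_le_hd GG n H).trans (hd_le hβ hmax hn H m1)
    unfold cd at m2
    rw [hcard, ← hH2] at m2
    exact m2

end Pool.Agent.W154.STK
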