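import Pool.Agent.W154.STK.Tval

set_option autoImplicit false

namespace Pool.Agent.W154.STK

open Finset Filter Topology
open scoped Classical
open Pool.Agent.H488R3

variable {V W W' : Type} [Fintype V] [Fintype W] [Fintype W']

lemma EE_sum_bot (H : SimpleGraph W) : EE (H ⊕g (⊥ : SimpleGraph W')) = EE H := by
  unfold EE dg
  rw [Fintype.sum_sum_type]
  have h1 : ∀ w : W, (∑ x : W ⊕ W', if (H ⊕g (⊥ : SimpleGraph W')).Adj (Sum.inl w) x then (1:ℤ) else 0) =
      ∑ x : W, if H.Adj w x then 1 else 0 := by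
    intro w
    rw [Fintype.sum_sum_type]
    simp
  have h2 : ∀ w : W', (∑ x : W ⊕ W', if (H ⊕g (⊥ : SimpleGraph W')).Adj (Sum.inr w) x then (1:ℤ) else 0) = 0 := by
    intro w
    rw [Fintype.sum_sum_type]
    simp
  rw [sum_congr rfl fun w _ => h1 w, sum_congr rfl fun w _ => h2 w]
  simp

lemma HM_sum_bot (G : SimpleGraph V) (H : SimpleGraph W) :
    (HM G H).card ≤ (HM G (H ⊕g (⊥ : SimpleGraph W'))).card := by
  refine card_le_card_of_injOn (fun φ v => Sum.inl (φ v)) ?_ ?_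
  · intro φ hφ
    rw [mem_coe, mem_HM] at hφ
    rw [mem_coe, mem_HM]
    intro a b hab
    simpa using hφ a b hab
  · intro φ _ ψ _ h
    funext v
    exact Sum.inl_injective (congrFun h v)

theorem padding : Padding := by
  rintro β β' h0 h1 h2 ⟨z, r, hon, hlt⟩
  obtain ⟨hw, he, ht⟩ := wzr_mem hon
  set w := wzr z r with hwdef
  have hβ : 0 < β := h0.trans h1
  set c := Real.sqrt (β' / β) with hc
  have hcpos : 0 < c := Real.sqrt_pos.2 (by positivity)
  have hc1 : c < 1 := by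
    rw [hc, Real.sqrt_lt' one_pos, one_pow, div_lt_one hβ]; exact h1
  have hc2 : c ^ 2 * β = β' := by
    rw [hc, Real.sq_sqrt (by positivity)]; field_simp
  set M : ℕ → ℕ := fun N => ⌈1 / c * (N : ℝ)⌉₊ with hM
  have hMN : ∀ N, N ≤ M N := by
    intro N
    have h3 : (N : ℝ) ≤ 1 / c * N := by
      have : (1:ℝ) ≤ 1 / c := by rw [le_div_iff₀ hcpos]; linarith
      nlinarith [Nat.cast_nonneg (α := ℝ) N]
    have h4 : (N : ℝ) ≤ (M N : ℝ) := h3.trans (Nat.le_ceil _)
    exact_mod_cast h4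
  have hlim : Tendsto (fun N : ℕ => (M N : ℝ) / N) atTop (𝓝 (1 / c)) :=
    (tendsto_nat_ceil_mul_div_atTop (by positivity : 0 ≤ 1 / c)).comp tendsto_natCast_atTop_atTop
  have hlim2 : Tendsto (fun N : ℕ => (N : ℝ) / (M N : ℝ)) atTop (𝓝 c) := by
    have := hlim.inv₀ (by positivity)
    simp only [one_div, inv_inv, inv_div] at this
    exact this
  have hmem : ∀ N : ℕ, 0 < N → ((EE (HG (clN w N)) : ℝ) / (M N : ℝ) ^ 2,
      ((HM GG (HG (clN w N))).card : ℝ) / (M N : ℝ) ^ 26) ∈ CC GG := by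
    intro N hN
    have : Nonempty (Fin N) := ⟨⟨0, hN⟩⟩
    have : Nonempty (Fin N ⊕ Fin (M N - N)) := ⟨Sum.inl ⟨0, hN⟩⟩
    have h3 := mem_CC GG ((HG (clN w N)) ⊕g (⊥ : SimpleGraph (Fin (M N - N))))
    rw [EE_sum_bot, Fintype.card_sum, Fintype.card_fin, Fintype.card_fin,
      Nat.add_sub_cancel' (hMN N)] at h3
    obtain ⟨w', hw', he', ht'⟩ := h3
    refine ⟨w', hw', he', le_trans ?_ ht'⟩
    have hcard : Fintype.card ((Fin 2 ⊕ Fin 8) ⊕ (Fin 8 ⊕ Fin 8)) = 26 := by simp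
    simp only
    rw [hcard]
    apply div_le_div_of_nonneg_right _ (by positivity)
    exact_mod_cast HM_sum_bot (W' := Fin (M N - N)) GG (HG (clN w N))
  have hl1 : Tendsto (fun N : ℕ => (EE (HG (clN w N)) : ℝ) / (M N : ℝ) ^ 2) atTop (𝓝 β') := by
    have h3 := (egy_tendsto hw).mul (hlim2.pow 2)
    rw [he] at h3
    have h4 : β * c ^ 2 = β' := by rw [← hc2]; ring
    rw [h4] at h3
    refine h3.congr' ?_
    filter_upwards [eventually_gt_atTop 0] with N hN
    have hN' : (N:ℝ) ≠ 0 := by positivity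
    have hM' : (M N : ℝ) ≠ 0 := by
      have := hMN N
      have : 0 < M N := by omega
      positivity
    field_simp
  have hl2 : Tendsto (fun N : ℕ => ((HM GG (HG (clN w N))).card : ℝ) / (M N : ℝ) ^ 26) atTop
      (𝓝 (Fp z r * c ^ 26)) := by
    have h3 := (hom_tendsto hw GG).mul (hlim2.pow 26)
    rw [ht] at h3
    have hcard : Fintype.card ((Fin 2 ⊕ Fin 8) ⊕ (Fin 8 ⊕ Fin 8)) = 26 := by simp
    rw [hcard] at h3
    refine h3.congr' ?_
    filter_upwards [eventually_gt_atTop 0] with N hN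
    have hN' : (N:ℝ) ≠ 0 := by positivity
    have hM' : (M N : ℝ) ≠ 0 := by
      have := hMN N
      have : 0 < M N := by omega
      positivity
    field_simp
  have hcl : (β', Fp z r * c ^ 26) ∈ CC GG := by
    apply (CC_closed GG).mem_of_tendsto (hl1.prodMk_nhds hl2)
    filter_upwards [eventually_gt_atTop 0] with N hN
    exact hmem N hN
  obtain ⟨w', hw', he', ht'⟩ := hcl
  simp only at he' ht'
  obtain ⟨hon', htv⟩ := on_of_mem hw'
  rw [he'] at hon'
  refine ⟨_, _, hon', ?_⟩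
  rw [← htv]
  refine lt_of_lt_of_le ?_ ht'
  have : β' ^ 13 = β ^ 13 * c ^ 26 := by rw [← hc2]; ring
  rw [this]
  exact mul_lt_mul_of_pos_right hlt (by positivity)

end Pool.Agent.W154.STK
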