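import Pool.Agent.W154.STK.Seq

set_option autoImplicit false

namespace Pool.Agent.W154.STK

open Finset Filter Topology Asymptotics
open scoped Classical
open Pool.Agent.H488R3

lemma two_choose (j : ℕ) : 2 * j.choose 2 = j * (j - 1) := by
  rw [Nat.choose_two_right]
  exact Nat.mul_div_cancel' (Nat.even_mul_pred_self j).two_dvd

lemma colex_lo {i j e : ℕ} (hij : i < j) (h : j < Nat.sqrt (2 * e)) : j.choose 2 + i < e := by
  have h1 : Nat.sqrt (2 * e) * Nat.sqrt (2 * e) ≤ 2 * e := Nat.sqrt_le _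
  have h2 : (j + 1) * (j + 1) ≤ Nat.sqrt (2 * e) * Nat.sqrt (2 * e) := Nat.mul_le_mul h h
  have h3 := two_choose j
  obtain ⟨k, rfl⟩ : ∃ k, j = k + 1 := ⟨j - 1, by omega⟩
  rw [Nat.add_sub_cancel] at h3
  have h4 : (k + 1 + 1) * (k + 1 + 1) = (k + 1) * k + 3 * k + 4 := by ring
  omega

lemma colex_hi {i j e : ℕ} (h : j.choose 2 + i < e) : j < Nat.sqrt (2 * e) + 2 := by
  by_contra hc
  push Not at hc
  have h1 : 2 * e < (Nat.sqrt (2 * e) + 1) * (Nat.sqrt (2 * e) + 1) := Nat.lt_succ_sqrt _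
  have h3 := two_choose j
  obtain ⟨k, rfl⟩ : ∃ k, j = k + 1 := ⟨j - 1, by omega⟩
  rw [Nat.add_sub_cancel] at h3
  have h4 : (Nat.sqrt (2 * e) + 1) * (Nat.sqrt (2 * e) + 1) ≤ (k + 1) * k :=
    Nat.mul_le_mul (by omega) (by omega)
  omega

/-- classes of a clique on `a` vertices -/
def clK (a : ℕ) (n : ℕ) (i : Fin n) : Cls := if (i : ℕ) < a then .Y else .B

/-- classes of the complement of a clique on `a` vertices -/
def clS (a : ℕ) (n : ℕ) (i : Fin n) : Cls := if (i : ℕ) < a then .B else .R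

lemma card_lt (a n : ℕ) : ((univ : Finset (Fin n)).filter (fun i : Fin n => (i : ℕ) < a)).card = min a n := by
  rw [card_filter_fin n (fun k => k < a)]
  have : (range n).filter (fun k : ℕ => k < a) = range (min a n) := by
    ext k; simp only [mem_filter, mem_range]; omega
  rw [this, card_range]

lemma card_ge (a n : ℕ) : ((univ : Finset (Fin n)).filter (fun i : Fin n => ¬ (i : ℕ) < a)).card = n - min a n := by
  rw [card_filter_fin n (fun k => ¬ k < a)]
  have : (range n).filter (fun k : ℕ => ¬ k < a) = Ico (min a n) n := by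
    ext k; simp only [mem_filter, mem_range, mem_Ico]; omega
  rw [this, Nat.card_Ico]

lemma cntK (a n : ℕ) : cnt (clK a n) .Y = (min a n : ℕ) ∧ cnt (clK a n) .B = (n : ℝ) - (min a n : ℕ) ∧
    cnt (clK a n) .R = 0 := by
  unfold cnt
  refine ⟨?_, ?_, ?_⟩
  · have : (univ : Finset (Fin n)).filter (fun i => clK a n i = .Y)
        = (univ : Finset (Fin n)).filter (fun i : Fin n => (i : ℕ) < a) := by
      apply filter_congr
      intro i _
      unfold clK
      split_ifs with g1 <;> simp [g1]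
    rw [this, card_lt]
  · have : (univ : Finset (Fin n)).filter (fun i => clK a n i = .B)
        = (univ : Finset (Fin n)).filter (fun i : Fin n => ¬ (i : ℕ) < a) := by
      apply filter_congr
      intro i _
      unfold clK
      split_ifs with g1 <;> simp [g1]
    rw [this, card_ge, Nat.cast_sub (min_le_right _ _)]
  · have : (univ : Finset (Fin n)).filter (fun i => clK a n i = .R) = ∅ := by
      apply filter_eq_empty_iff.2
      intro i _
      unfold clK
      split_ifs <;> simp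
    rw [this]; simp

lemma cntS (a n : ℕ) : cnt (clS a n) .B = (min a n : ℕ) ∧ cnt (clS a n) .R = (n : ℝ) - (min a n : ℕ) ∧
    cnt (clS a n) .Y = 0 := by
  unfold cnt
  refine ⟨?_, ?_, ?_⟩
  · have : (univ : Finset (Fin n)).filter (fun i => clS a n i = .B)
        = (univ : Finset (Fin n)).filter (fun i : Fin n => (i : ℕ) < a) := by
      apply filter_congr
      intro i _
      unfold clS
      split_ifs with g1 <;> simp [g1]
    rw [this, card_lt]
  · have : (univ : Finset (Fin n)).filter (fun i => clS a n i = .R)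
        = (univ : Finset (Fin n)).filter (fun i : Fin n => ¬ (i : ℕ) < a) := by
      apply filter_congr
      intro i _
      unfold clS
      split_ifs with g1 <;> simp [g1]
    rw [this, card_ge, Nat.cast_sub (min_le_right _ _)]
  · have : (univ : Finset (Fin n)).filter (fun i => clS a n i = .Y) = ∅ := by
      apply filter_eq_empty_iff.2
      intro i _
      unfold clS
      split_ifs <;> simp
    rw [this]; simp

/-- weights of a clique -/
def wK (s : ℝ) : Cls → ℝ
  | .Y => s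
  | .R => 0
  | .B => 1 - s

/-- weights of a star -/
def wS (s : ℝ) : Cls → ℝ
  | .Y => 0
  | .R => 1 - s
  | .B => s

lemma min_close {a n : ℕ} {s K : ℝ} (hs1 : s ≤ 1) (h : |(a : ℝ) - s * n| ≤ K) :
    |((min a n : ℕ) : ℝ) - s * n| ≤ K := by
  rcases le_total a n with h1 | h1
  · rw [min_eq_left h1]; exact h
  · rw [min_eq_right h1]
    have h2 : s * n ≤ n := by
      have := mul_le_mul_of_nonneg_right hs1 (Nat.cast_nonneg (α := ℝ) n)
      linarith
    have h3 : (n : ℝ) ≤ a := by exact_mod_cast h1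
    rw [abs_le] at h ⊢
    constructor <;> linarith

lemma closeK {a n : ℕ} (hn : 0 < n) {s K : ℝ} (hs1 : s ≤ 1) (h : |(a : ℝ) - s * n| ≤ K) (c : Cls) :
    |cnt (clK a n) c / (n : ℝ) - wK s c| ≤ K / n := by
  have hn' : (0:ℝ) < n := by exact_mod_cast hn
  have h1 := min_close hs1 h
  have hK : 0 ≤ K := (abs_nonneg _).trans h
  obtain ⟨c1, c2, c3⟩ := cntK a n
  cases c
  · rw [c1]
    have : ((min a n : ℕ) : ℝ) / (n : ℝ) - wK s .Y = (((min a n : ℕ) : ℝ) - s * n) / n := by
      simp only [wK]; field_simp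
    rw [this, abs_div, abs_of_pos hn']
    exact div_le_div_of_nonneg_right h1 hn'.le
  · rw [c3]
    simp only [wK, zero_div, sub_zero, abs_zero]
    positivity
  · rw [c2]
    have : ((n : ℝ) - (min a n : ℕ)) / (n : ℝ) - wK s .B = -((((min a n : ℕ) : ℝ) - s * n) / n) := by
      simp only [wK]; field_simp; ring
    rw [this, abs_neg, abs_div, abs_of_pos hn']
    exact div_le_div_of_nonneg_right h1 hn'.le

lemma closeS {a n : ℕ} (hn : 0 < n) {s K : ℝ} (hs1 : s ≤ 1) (h : |(a : ℝ) - s * n| ≤ K) (c : Cls) :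
    |cnt (clS a n) c / (n : ℝ) - wS s c| ≤ K / n := by
  have hn' : (0:ℝ) < n := by exact_mod_cast hn
  have h1 := min_close hs1 h
  have hK : 0 ≤ K := (abs_nonneg _).trans h
  obtain ⟨c1, c2, c3⟩ := cntS a n
  cases c
  · rw [c3]
    simp only [wS, zero_div, sub_zero, abs_zero]
    positivity
  · rw [c2]
    have : ((n : ℝ) - (min a n : ℕ)) / (n : ℝ) - wS s .R = -((((min a n : ℕ) : ℝ) - s * n) / n) := by
      simp only [wS]; field_simp; ring
    rw [this, abs_neg, abs_div, abs_of_pos hn']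
    exact div_le_div_of_nonneg_right h1 hn'.le
  · rw [c1]
    have : ((min a n : ℕ) : ℝ) / (n : ℝ) - wS s .B = (((min a n : ℕ) : ℝ) - s * n) / n := by
      simp only [wS]; field_simp
    rw [this, abs_div, abs_of_pos hn']
    exact div_le_div_of_nonneg_right h1 hn'.le

lemma tendsto_of_close {f : ℕ → ℝ} {t K : ℝ} (h : ∀ n : ℕ, 0 < n → |f n - t| ≤ K / n) :
    Tendsto f atTop (𝓝 t) := by
  rw [tendsto_iff_norm_sub_tendsto_zero]
  refine tendsto_of_tendsto_of_tendsto_of_le_of_le' tendsto_const_nhds (inv_tendsto K) ?_ ?_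
  · exact Eventually.of_forall fun n => norm_nonneg _
  · filter_upwards [eventually_gt_atTop 0] with n hn
    exact h n hn

lemma abs_squeeze {lo x hi t K : ℝ} (h1 : lo ≤ x) (h2 : x ≤ hi) (h3 : |lo - t| ≤ K)
    (h4 : |hi - t| ≤ K) : |x - t| ≤ K := by
  rw [abs_le] at *
  constructor <;> linarith

variable {V : Type} [Fintype V]

/-- a sequence of graphs sandwiched between two sequences of class graphs -/
theorem sandwich (G : SimpleGraph V) {H : ∀ n : ℕ, SimpleGraph (Fin n)}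
    {lo hi : ∀ n : ℕ, Fin n → Cls} {w : Cls → ℝ} {K : ℝ} (hw : ∀ c, |w c| ≤ 1)
    (h1 : ∀ n, HG (lo n) ≤ H n) (h2 : ∀ n, H n ≤ HG (hi n))
    (h3 : ∀ n : ℕ, 0 < n → ∀ c, |cnt (lo n) c / (n : ℝ) - w c| ≤ K / n)
    (h4 : ∀ n : ℕ, 0 < n → ∀ c, |cnt (hi n) c / (n : ℝ) - w c| ≤ K / n) :
    Tendsto (fun n => cd G n (H n)) atTop (𝓝 (tval G w)) ∧
    ∀ n : ℕ, 0 < n → |ed n (H n) - egy w| ≤ (12 * K + 4) / n := by
  constructor
  · apply cd_tendsto
    have l1 := hd_class G (cl := lo) (w := w) fun c => tendsto_of_close fun n hn => h3 n hn c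
    have l2 := hd_class G (cl := hi) (w := w) fun c => tendsto_of_close fun n hn => h4 n hn c
    exact tendsto_of_tendsto_of_tendsto_of_le_of_le l1 l2 (fun n => hd_mono G (h1 n))
      (fun n => hd_mono G (h2 n))
  · intro n hn
    exact abs_squeeze (ed_mono (h1 n)) (ed_mono (h2 n)) (ed_class hn hw (h3 n hn))
      (ed_class hn hw (h4 n hn))

lemma sqrt_closeK {β : ℝ} (h0 : 0 ≤ β) (n : ℕ) :
    |((Nat.sqrt (2 * ⌊β * (n:ℝ) ^ 2 / 2⌋₊) : ℕ) : ℝ) - Real.sqrt β * n| ≤ 3 := by
  set e := ⌊β * (n:ℝ) ^ 2 / 2⌋₊ with he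
  set a := Nat.sqrt (2 * e) with ha
  have h1 : a * a ≤ 2 * e := Nat.sqrt_le _
  have h2 : 2 * e < (a + 1) * (a + 1) := Nat.lt_succ_sqrt _
  have h3 : (e : ℝ) ≤ β * (n:ℝ) ^ 2 / 2 := Nat.floor_le (by positivity)
  have h4 : β * (n:ℝ) ^ 2 / 2 < e + 1 := Nat.lt_floor_add_one _
  have h1' : (a:ℝ) * a ≤ 2 * e := by exact_mod_cast h1
  have h2' : (2:ℝ) * e + 1 ≤ (a + 1) * (a + 1) := by exact_mod_cast h2
  have h5 : (Real.sqrt β * n) ^ 2 = β * (n:ℝ) ^ 2 := by
    rw [mul_pow, Real.sq_sqrt h0]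
  have hs : 0 ≤ Real.sqrt β * n := by positivity
  have ha0 : (0:ℝ) ≤ a := Nat.cast_nonneg _
  rw [abs_le]
  constructor
  · have h6 : Real.sqrt β * n ≤ a + 3 := by
      apply abs_le_of_sq_le_sq' _ (by positivity) |>.2
      rw [h5]
      nlinarith
    linarith
  · have h6 : (a:ℝ) ≤ Real.sqrt β * n := by
      apply abs_le_of_sq_le_sq' _ hs |>.2
      rw [h5]
      nlinarith
    linarith

lemma sqrt_closeS {β : ℝ} (h0 : 0 ≤ β) (h1 : β < 1) :
    ∃ K : ℝ, 0 ≤ K ∧ ∀ n : ℕ, |((Nat.sqrt (2 * (n.choose 2 - ⌊β * (n:ℝ) ^ 2 / 2⌋₊)) : ℕ) : ℝ) -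
      Real.sqrt (1 - β) * n| ≤ K := by
  set s := Real.sqrt (1 - β) with hsdef
  have hs0 : 0 < s := Real.sqrt_pos.2 (by linarith)
  have hs2 : s ^ 2 = 1 - β := Real.sq_sqrt (by linarith)
  refine ⟨2 + 1 / s, by positivity, fun n => ?_⟩
  set e := ⌊β * (n:ℝ) ^ 2 / 2⌋₊ with he
  set e' := n.choose 2 - e with he'
  set a := Nat.sqrt (2 * e') with ha
  have g1 : a * a ≤ 2 * e' := Nat.sqrt_le _
  have g2 : 2 * e' < (a + 1) * (a + 1) := Nat.lt_succ_sqrt _
  have g3 : (e : ℝ) ≤ β * (n:ℝ) ^ 2 / 2 := Nat.floor_le (by positivity)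
  have g4 : β * (n:ℝ) ^ 2 / 2 < e + 1 := Nat.lt_floor_add_one _
  have g1' : (a:ℝ) * a ≤ 2 * e' := by exact_mod_cast g1
  have g2' : (2:ℝ) * e' + 1 ≤ (a + 1) * (a + 1) := by exact_mod_cast g2
  have hc : (2:ℝ) * (n.choose 2 : ℕ) = n * n - n := by
    have h := two_choose n
    have h9 : (2:ℝ) * (n.choose 2 : ℕ) = ((n * (n - 1) : ℕ) : ℝ) := by exact_mod_cast h
    rw [h9]
    rcases Nat.eq_zero_or_pos n with h | h
    · subst h; simp
    · rw [Nat.cast_mul, Nat.cast_sub h]; push_cast; ring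
  have g5 : (e' : ℝ) ≥ (n.choose 2 : ℕ) - (e : ℝ) := by
    have : n.choose 2 ≤ e' + e := by omega
    have : ((n.choose 2 : ℕ) : ℝ) ≤ e' + e := by exact_mod_cast this
    linarith
  have g6 : (2:ℝ) * e' ≤ (s * n) ^ 2 + 2 := by
    rcases le_total e (n.choose 2) with h | h
    · have : (e' : ℝ) = (n.choose 2 : ℕ) - (e : ℝ) := by rw [he', Nat.cast_sub h]
      rw [this, mul_pow, hs2]
      have hn0 : (0:ℝ) ≤ n := Nat.cast_nonneg _
      linarith
    · have : e' = 0 := by omega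
      rw [this]
      push_cast
      have := sq_nonneg (s * n)
      linarith
  have ha0 : (0:ℝ) ≤ a := Nat.cast_nonneg _
  have hsn : 0 ≤ s * n := by positivity
  have hi : 0 < 1 / s := by positivity
  rw [abs_le]
  constructor
  · by_contra hcon
    push Not at hcon
    have k1 : (a:ℝ) + 1 < s * n - 1 / s := by linarith
    have k2 : ((a:ℝ) + 1) * (a + 1) < (s * n - 1 / s) * (s * n - 1 / s) :=
      mul_self_lt_mul_self (by linarith) k1
    have k3 : (s * n - 1 / s) * (s * n - 1 / s) = (s * n) ^ 2 - 2 * n + (1 / s) * (1 / s) := by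
      field_simp; ring
    have k4 : (1 / s) * (1 / s) ≤ n := by
      have : 1 / s < s * n := by linarith
      have h9 : 1 / s * (1 / s) ≤ (1 / s) * (s * n) := mul_le_mul_of_nonneg_left this.le hi.le
      have h10 : (1 / s) * (s * n) = n := by field_simp
      linarith
    have k5 : (2:ℝ) * e' ≥ (s * n) ^ 2 - n := by
      rw [mul_pow, hs2]
      linarith
    linarith
  · have k1 : (a:ℝ) ≤ s * n + 2 := by
      apply abs_le_of_sq_le_sq' _ (by positivity) |>.2
      nlinarith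
    linarith

end Pool.Agent.W154.STK
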