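import Pool.Agent.H488R3.Real

set_option autoImplicit false

namespace Pool.Agent.W154.STK

open Finset Filter Topology
open scoped Classical
open Pool.Agent.H488R3

section copies

variable {V W : Type} {G : SimpleGraph V} {H : SimpleGraph W}

/-- the copy attached to a subgraph and an isomorphism -/
def mkCopy (G' : G.Subgraph) (e : H ≃g G'.coe) : SimpleGraph.Copy H G :=
  ⟨G'.hom.comp e.toHom, SimpleGraph.Subgraph.hom_injective.comp e.injective⟩

theorem mkCopy_apply (G' : G.Subgraph) (e : H ≃g G'.coe) (x : W) :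
    mkCopy G' e x = (e x : V) := rfl

theorem mkCopy_toSubgraph (G' : G.Subgraph) (e : H ≃g G'.coe) :
    (mkCopy G' e).toSubgraph = G' := by
  simp [SimpleGraph.Copy.toSubgraph, mkCopy, SimpleGraph.Subgraph.map_comp]

theorem card_copies [Finite V] [Finite W] :
    Nat.card (SimpleGraph.Copy H G)
      = Nat.card {G' : G.Subgraph // Nonempty (H ≃g G'.coe)} * Nat.card (H ≃g H) := by
  classical
  rw [← Nat.card_prod]
  symm
  apply Nat.card_congr
  refine Equiv.ofBijective
    (fun p : {G' : G.Subgraph // Nonempty (H ≃g G'.coe)} × (H ≃g H) =>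
      mkCopy p.1.1 (p.2.trans (Classical.choice p.1.2))) ⟨?_, ?_⟩
  · rintro ⟨⟨G1, h1⟩, σ1⟩ ⟨⟨G2, h2⟩, σ2⟩ h
    simp only at h
    have hG : G1 = G2 := by
      rw [← mkCopy_toSubgraph G1 (σ1.trans (Classical.choice h1)), h, mkCopy_toSubgraph]
    subst hG
    congr 1
    apply RelIso.ext
    intro x
    have hx := DFunLike.congr_fun h x
    rw [mkCopy_apply, mkCopy_apply] at hx
    have hx2 := Subtype.ext hx
    rw [RelIso.trans_apply, RelIso.trans_apply] at hx2
    exact (Classical.choice h1).injective hx2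
  · intro f
    refine ⟨(⟨f.toSubgraph, ⟨f.isoToSubgraph⟩⟩,
      f.isoToSubgraph.trans (Classical.choice ⟨f.isoToSubgraph⟩ : H ≃g f.toSubgraph.coe).symm), ?_⟩
    apply SimpleGraph.Copy.ext
    intro x
    rw [mkCopy_apply]
    simp only [RelIso.trans_apply, RelIso.apply_symm_apply]
    rfl

theorem copyCount_mul [Fintype V] [Fintype W] :
    G.labelledCopyCount H = G.copyCount H * Nat.card (H ≃g H) := by
  classical
  have h := card_copies (G := G) (H := H)
  rw [SimpleGraph.labelledCopyCount, SimpleGraph.copyCount]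
  rw [← Nat.card_eq_fintype_card, h]
  congr 1
  rw [Nat.card_eq_fintype_card, Fintype.card_subtype]

theorem aut_pos [Finite W] (H : SimpleGraph W) : 0 < Nat.card (H ≃g H) := by
  classical
  have : Nonempty (H ≃g H) := ⟨SimpleGraph.Iso.refl⟩
  have : Finite (H ≃g H) := by
    apply Finite.of_injective (fun e : H ≃g H => (e : W → W))
    intro a b hab
    exact RelIso.ext (fun x => congrFun hab x)
  exact Nat.card_pos

end copies

variable {V W : Type} [Fintype V] [Fintype W]

lemma lab_eq (G : SimpleGraph V) (H : SimpleGraph W) :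
    H.labelledCopyCount G = ((HM G H).filter (fun φ => Function.Injective φ)).card := by
  have h1 : H.labelledCopyCount G = Nat.card (SimpleGraph.Copy G H) := by
    rw [SimpleGraph.labelledCopyCount, ← Nat.card_eq_fintype_card]
  rw [h1, ← Fintype.card_coe, ← Nat.card_eq_fintype_card]
  apply Nat.card_congr
  refine ⟨fun f => ⟨fun v => f v, ?_⟩, fun φ => ⟨⟨φ.1, ?_⟩, ?_⟩, ?_, ?_⟩
  · rw [mem_filter, mem_HM]
    exact ⟨fun a b hab => f.toHom.map_rel hab, f.injective⟩
  · intro a b hab
    have h2 := φ.2
    rw [mem_filter, mem_HM] at h2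
    exact h2.1 a b hab
  · have h2 := φ.2
    rw [mem_filter] at h2
    exact h2.2
  · intro f; rfl
  · intro φ; rfl

lemma lab_le (G : SimpleGraph V) (H : SimpleGraph W) :
    H.labelledCopyCount G ≤ (HM G H).card := by
  rw [lab_eq]
  exact card_filter_le _ _

lemma le_lab (G : SimpleGraph V) (H : SimpleGraph W) :
    Fintype.card W * (HM G H).card ≤ Fintype.card W * H.labelledCopyCount G
      + Fintype.card V ^ 2 * Fintype.card W ^ Fintype.card V := by
  rw [lab_eq]
  have h1 : HM G H ⊆ (HM G H).filter (fun φ => Function.Injective φ) ∪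
      ((univ : Finset (V × V)).filter (fun p => p.1 ≠ p.2)).biUnion
      (fun p => univ.filter (fun φ : V → W => φ p.1 = φ p.2)) := by
    intro φ hφ
    by_cases h : Function.Injective φ
    · exact mem_union_left _ (mem_filter.2 ⟨hφ, h⟩)
    · apply mem_union_right
      unfold Function.Injective at h
      push Not at h
      obtain ⟨a, b, hab, hn⟩ := h
      simp only [mem_biUnion, mem_filter, mem_univ, true_and]
      exact ⟨(a, b), hn, hab⟩
  have h2 := (card_le_card h1).trans (card_union_le _ _)
  have h3 : Fintype.card W * (((univ : Finset (V × V)).filter (fun p => p.1 ≠ p.2)).biUnion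
      (fun p => univ.filter (fun φ : V → W => φ p.1 = φ p.2))).card ≤ Fintype.card V ^ 2 * Fintype.card W ^ Fintype.card V := by
    calc _ ≤ Fintype.card W * ∑ p ∈ (univ : Finset (V × V)).filter (fun p => p.1 ≠ p.2), (univ.filter (fun φ : V → W => φ p.1 = φ p.2)).card :=
          Nat.mul_le_mul_left _ card_biUnion_le
      _ = ∑ p ∈ (univ : Finset (V × V)).filter (fun p => p.1 ≠ p.2), Fintype.card W * (univ.filter (fun φ : V → W => φ p.1 = φ p.2)).card := by
          rw [mul_sum]
      _ ≤ ∑ p ∈ (univ : Finset (V × V)).filter (fun p => p.1 ≠ p.2), Fintype.card W ^ Fintype.card V := by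
          apply sum_le_sum
          intro p hp
          exact fiber_eq (mem_filter.1 hp).2
      _ ≤ ∑ p : V × V, Fintype.card W ^ Fintype.card V :=
          sum_le_sum_of_subset (filter_subset _ _)
      _ = _ := by
          rw [sum_const, smul_eq_mul, card_univ, Fintype.card_prod]; ring
  calc _ ≤ Fintype.card W * (((HM G H).filter (fun φ => Function.Injective φ)).card + _) :=
        Nat.mul_le_mul_left _ h2
    _ ≤ _ := by rw [mul_add]; exact Nat.add_le_add_left h3 _

lemma HM_mono (G : SimpleGraph V) {H H' : SimpleGraph W} (h : H ≤ H') : HM G H ⊆ HM G H' := by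
  intro φ hφ
  rw [mem_HM] at hφ ⊢
  exact fun a b hab => h (hφ a b hab)

lemma EE_mono {H H' : SimpleGraph W} (h : H ≤ H') : EE H ≤ EE H' := by
  rw [EE_eq, EE_eq]
  exact_mod_cast card_le_card (HM_mono (⊤ : SimpleGraph (Fin 2)) h)

lemma EE_ncard (H : SimpleGraph W) : EE H = 2 * (H.edgeSet.ncard : ℤ) := by
  have h1 := H.sum_degrees_eq_twice_card_edges
  have h2 : H.edgeSet.ncard = H.edgeFinset.card := by
    rw [← SimpleGraph.coe_edgeFinset, Set.ncard_coe_finset]
  rw [h2]
  have h3 : ((∑ v, H.degree v : ℕ) : ℤ) = 2 * (H.edgeFinset.card : ℤ) := by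
    rw [h1]; push_cast; rfl
  rw [← h3]
  push_cast
  unfold EE dg
  refine sum_congr rfl fun v _ => ?_
  rw [← SimpleGraph.card_neighborFinset_eq_degree, SimpleGraph.neighborFinset_eq_filter, card_filter]
  push_cast
  rfl

end Pool.Agent.W154.STK
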