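import Mathlib

set_option autoImplicit false

namespace Pool.Agent.W154.STK

/-- density of `K_{2,8}` in the `T`-graph with `z = |Y ∪ R|`, `r = |R|` -/
def FA (z r : ℝ) : ℝ := z ^ 10 + r ^ 2 * (1 - z ^ 8) + r ^ 8 * (1 - z ^ 2)

/-- density of `K_{8,8}` -/
def FB (z r : ℝ) : ℝ := z ^ 16 + 2 * r ^ 8 * (1 - z ^ 8)

/-- density of the disjoint union -/
def Fp (z r : ℝ) : ℝ := FA z r * FB z r

/-- edge density -/
def be (z r : ℝ) : ℝ := z ^ 2 + 2 * r * (1 - z)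

theorem FA_eq (z r : ℝ) : FA z r = r ^ 2 + r ^ 8 - r ^ 10 + (z ^ 2 - r ^ 2) * (z ^ 8 - r ^ 8) := by
  unfold FA; ring

theorem FB_eq (z r : ℝ) : FB z r = 2 * r ^ 8 - r ^ 16 + (z ^ 8 - r ^ 8) ^ 2 := by
  unfold FB; ring

theorem be_eq (z r : ℝ) : be z r = 1 - 2 * (1 - r) * (1 - z) + (1 - z) ^ 2 := by
  unfold be; ring

theorem be_sub (z r x : ℝ) : be z r - (2 * x - x ^ 2) = (z - r) ^ 2 - (x - r) * (2 - x - r) := by
  unfold be; ring

theorem FA_nonneg {z r : ℝ} (h0 : 0 ≤ r) (h1 : r ≤ z) (h2 : z ≤ 1) : 0 ≤ FA z r := by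
  unfold FA
  have hz : 0 ≤ z := h0.trans h1
  have h8 : z ^ 8 ≤ 1 := pow_le_one₀ hz h2
  have h22 : z ^ 2 ≤ 1 := pow_le_one₀ hz h2
  have := mul_nonneg (sq_nonneg r) (sub_nonneg.2 h8)
  have := mul_nonneg (pow_nonneg h0 8) (sub_nonneg.2 h22)
  positivity

theorem FB_nonneg {z r : ℝ} (h0 : 0 ≤ r) (h1 : r ≤ z) (h2 : z ≤ 1) : 0 ≤ FB z r := by
  unfold FB
  have hz : 0 ≤ z := h0.trans h1
  have h8 : z ^ 8 ≤ 1 := pow_le_one₀ hz h2
  have := mul_nonneg (mul_nonneg (by norm_num : (0:ℝ) ≤ 2) (pow_nonneg h0 8)) (sub_nonneg.2 h8)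
  positivity

theorem FA_le_one {z r : ℝ} (h0 : 0 ≤ r) (h1 : r ≤ z) (h2 : z ≤ 1) : FA z r ≤ 1 := by
  have hz : 0 ≤ z := h0.trans h1
  have h8 : z ^ 8 ≤ 1 := pow_le_one₀ hz h2
  have h22 : z ^ 2 ≤ 1 := pow_le_one₀ hz h2
  have hr2 : r ^ 2 ≤ z ^ 2 := pow_le_pow_left₀ h0 h1 2
  have hr8 : r ^ 8 ≤ z ^ 8 := pow_le_pow_left₀ h0 h1 8
  have a1 := mul_le_mul_of_nonneg_right hr2 (sub_nonneg.2 h8)
  have a2 := mul_le_mul_of_nonneg_right hr8 (sub_nonneg.2 h22)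
  have a3 := mul_nonneg (sub_nonneg.2 h22) (sub_nonneg.2 h8)
  unfold FA
  nlinarith

theorem FB_le_one {z r : ℝ} (h0 : 0 ≤ r) (h1 : r ≤ z) (h2 : z ≤ 1) : FB z r ≤ 1 := by
  have hz : 0 ≤ z := h0.trans h1
  have h8 : z ^ 8 ≤ 1 := pow_le_one₀ hz h2
  have hr8 : r ^ 8 ≤ z ^ 8 := pow_le_pow_left₀ h0 h1 8
  have a2 := mul_le_mul_of_nonneg_right hr8 (sub_nonneg.2 h8)
  unfold FB
  nlinarith [sq_nonneg (1 - z ^ 8)]

/-- `1 - z^8 ≤ 8 (1 - z)` -/
theorem one_sub_pow8_le {z : ℝ} (h0 : 0 ≤ z) (h1 : z ≤ 1) : 1 - z ^ 8 ≤ 8 * (1 - z) := by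
  have := one_add_mul_le_pow (a := z - 1) (by linarith) 8
  have h : (1 + (z - 1)) = z := by ring
  rw [h] at this
  push_cast at this
  linarith

theorem one_sub_sq_le {z : ℝ} (h0 : 0 ≤ z) (h1 : z ≤ 1) : 1 - z ^ 2 ≤ 2 * (1 - z) := by
  nlinarith

/-- near the quasi-clique -/
theorem klocal {z r : ℝ} (h0 : 0 < r) (h1 : r < z ^ 24) (h2 : r ≤ z) (h3 : z < 1) :
    Fp z r < be z r ^ 13 := by
  have hz : 0 < z := h0.trans_le h2
  have hr1 : r ≤ 1 := h2.trans h3.le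
  have hP := one_sub_pow8_le hz.le h3.le
  have hp := one_sub_sq_le hz.le h3.le
  have hP0 : 0 ≤ 1 - z ^ 8 := sub_nonneg.2 (pow_le_one₀ hz.le h3.le)
  have hp0 : 0 ≤ 1 - z ^ 2 := sub_nonneg.2 (pow_le_one₀ hz.le h3.le)
  have hA := FA_le_one h0.le h2 h3.le
  have hA0 := FA_nonneg h0.le h2 h3.le
  have hz16 : z ^ 16 ≤ 1 := pow_le_one₀ hz.le h3.le
  have hr8 : r ^ 8 ≤ r ^ 2 := pow_le_pow_of_le_one h0.le hr1 (by norm_num)
  -- upper bound for F
  have e1 : Fp z r = z ^ 26 + z ^ 16 * (r ^ 2 * (1 - z ^ 8) + r ^ 8 * (1 - z ^ 2)) +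
      2 * r ^ 8 * (1 - z ^ 8) * FA z r := by
    unfold Fp FB
    unfold FA
    ring
  have b1 : r ^ 2 * (1 - z ^ 8) ≤ r ^ 2 * (8 * (1 - z)) :=
    mul_le_mul_of_nonneg_left hP (by positivity)
  have b2 : r ^ 8 * (1 - z ^ 2) ≤ r ^ 2 * (2 * (1 - z)) :=
    mul_le_mul hr8 hp hp0 (by positivity)
  have b3 : r ^ 8 * (1 - z ^ 8) ≤ r ^ 2 * (8 * (1 - z)) :=
    mul_le_mul hr8 hP hP0 (by positivity)
  have b0 : 0 ≤ r ^ 2 * (1 - z ^ 8) + r ^ 8 * (1 - z ^ 2) := by positivity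
  have b4 : z ^ 16 * (r ^ 2 * (1 - z ^ 8) + r ^ 8 * (1 - z ^ 2)) ≤
      r ^ 2 * (8 * (1 - z)) + r ^ 2 * (2 * (1 - z)) := by
    calc _ ≤ 1 * (r ^ 2 * (1 - z ^ 8) + r ^ 8 * (1 - z ^ 2)) :=
          mul_le_mul_of_nonneg_right hz16 b0
      _ ≤ _ := by linarith
  have b5 : 2 * r ^ 8 * (1 - z ^ 8) * FA z r ≤ 2 * (r ^ 2 * (8 * (1 - z))) := by
    have : 0 ≤ r ^ 8 * (1 - z ^ 8) := by positivity
    calc _ = 2 * (r ^ 8 * (1 - z ^ 8)) * FA z r := by ring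
      _ ≤ 2 * (r ^ 8 * (1 - z ^ 8)) * 1 := mul_le_mul_of_nonneg_left hA (by positivity)
      _ ≤ _ := by linarith
  have c1 : Fp z r ≤ z ^ 26 + 26 * (r ^ 2 * (1 - z)) := by
    rw [e1]; linarith
  -- lower bound for the power
  have hb : be z r = z ^ 2 * (1 + 2 * r * (1 - z) / z ^ 2) := by
    unfold be; field_simp
  have hq : 0 ≤ 2 * r * (1 - z) / z ^ 2 := by
    have := sub_nonneg.2 h3.le
    positivity
  have c2 : z ^ 26 + 26 * z ^ 24 * (r * (1 - z)) ≤ be z r ^ 13 := by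
    have h13 := one_add_mul_le_pow (a := 2 * r * (1 - z) / z ^ 2) (by linarith) 13
    push_cast at h13
    rw [hb, mul_pow]
    have hz26 : (z ^ 2) ^ 13 = z ^ 26 := by ring
    rw [hz26]
    calc z ^ 26 + 26 * z ^ 24 * (r * (1 - z))
        = z ^ 26 * (1 + 13 * (2 * r * (1 - z) / z ^ 2)) := by field_simp; ring
      _ ≤ _ := mul_le_mul_of_nonneg_left h13 (by positivity)
  have c3 : 26 * (r ^ 2 * (1 - z)) < 26 * z ^ 24 * (r * (1 - z)) := by
    have : 0 < r * (1 - z) := mul_pos h0 (by linarith)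
    nlinarith
  linarith

/-- near density one -/
theorem knear {z r : ℝ} (h0 : 0 < r) (h2 : r ≤ z) (h3 : z < 1)
    (h4 : 1 - 1 / 10 ^ 6 ≤ be z r) : Fp z r < be z r ^ 13 := by
  have hz : 0 < z := h0.trans_le h2
  -- 1 - z ≤ 1/1000
  have hb2 : (1 - z) ^ 2 ≤ 1 / 10 ^ 6 := by
    have h5 : be z r ≤ 1 - (1 - z) ^ 2 := by
      rw [be_eq]
      nlinarith [mul_nonneg (sub_nonneg.2 h3.le) (sub_nonneg.2 h2)]
    linarith
  have hb : 1 - z ≤ 1 / 1000 := by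
    by_contra h
    push Not at h
    nlinarith
  by_cases hr : r ≤ 19 / 20
  · apply klocal h0 _ h2 h3
    have := one_add_mul_le_pow (a := z - 1) (by linarith) 24
    have h' : (1 + (z - 1)) = z := by ring
    rw [h'] at this
    push_cast at this
    linarith
  · push Not at hr
    have hA := FA_le_one h0.le h2 h3.le
    have hB0 := FB_nonneg h0.le h2 h3.le
    have hF : Fp z r ≤ FB z r := by
      unfold Fp
      nlinarith
    have hs : 0 ≤ 1 - r := by linarith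
    have hbern : 1 - 13 * (1 - be z r) ≤ be z r ^ 13 := by
      have h13 := one_add_mul_le_pow (a := be z r - 1) (by linarith) 13
      have h' : (1 + (be z r - 1)) = be z r := by ring
      rw [h'] at h13
      push_cast at h13
      linarith
    -- lower bounds
    set b := 1 - z with hbdef
    set h := 1 - r with hhdef
    have hbh : b ≤ h := by linarith
    have hb0 : 0 < b := by linarith
    have hP1 : 79 / 10 * b ≤ 1 - z ^ 8 := by
      have e : z = 1 - b := by linarith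
      rw [e]
      have : 1 - (1 - b) ^ 8 = b * (8 - 28 * b + 56 * b ^ 2 - 70 * b ^ 3 + 56 * b ^ 4 - 28 * b ^ 5 + 8 * b ^ 6 - b ^ 7) := by ring
      rw [this, mul_comm]
      apply mul_le_mul_of_nonneg_left _ hb0.le
      have k1 : b ^ 3 ≤ b := by
        calc b ^ 3 ≤ b ^ 1 := pow_le_pow_of_le_one hb0.le (by linarith) (by norm_num)
          _ = b := pow_one b
      have k2 : b ^ 5 ≤ b := by
        calc b ^ 5 ≤ b ^ 1 := pow_le_pow_of_le_one hb0.le (by linarith) (by norm_num)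
          _ = b := pow_one b
      have k3 : b ^ 7 ≤ b := by
        calc b ^ 7 ≤ b ^ 1 := pow_le_pow_of_le_one hb0.le (by linarith) (by norm_num)
          _ = b := pow_one b
      have k4 : 0 ≤ 56 * b ^ 2 := by positivity
      have k5 : 0 ≤ 56 * b ^ 4 := by positivity
      have k6 : 0 ≤ 8 * b ^ 6 := by positivity
      nlinarith [sq_nonneg b]
    have hP2 : 1 - z ^ 8 ≤ 8 * b := one_sub_pow8_le hz.le h3.le
    have hPi : 6 * h ≤ 1 - r ^ 8 := by
      have e : r = 1 - h := by linarith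
      rw [e]
      have hh0 : 0 ≤ h := hs
      have hh1 : h ≤ 1 / 20 := by linarith
      have : 1 - (1 - h) ^ 8 = h * (8 - 28 * h + 56 * h ^ 2 - 70 * h ^ 3 + 56 * h ^ 4 - 28 * h ^ 5 + 8 * h ^ 6 - h ^ 7) := by ring
      rw [this, mul_comm]
      apply mul_le_mul_of_nonneg_left _ hh0
      have k1 : h ^ 3 ≤ 1 / 400 * h := by
        calc h ^ 3 = h ^ 2 * h := by ring
          _ ≤ (1 / 20) ^ 2 * h := by gcongr
          _ = _ := by ring
      have k2 : h ^ 5 ≤ 1 / 400 * h := by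
        calc h ^ 5 = h ^ 2 * h ^ 3 := by ring
          _ ≤ 1 * h ^ 3 := by
            apply mul_le_mul_of_nonneg_right _ (by positivity)
            nlinarith
          _ ≤ _ := by linarith
      have k3 : h ^ 7 ≤ 1 / 400 * h := by
        calc h ^ 7 = h ^ 4 * h ^ 3 := by ring
          _ ≤ 1 * h ^ 3 := by
            apply mul_le_mul_of_nonneg_right _ (by positivity)
            exact pow_le_one₀ hh0 (by linarith)
          _ ≤ _ := by linarith
      have k4 : 0 ≤ 56 * h ^ 2 := by positivity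
      have k5 : 0 ≤ 56 * h ^ 4 := by positivity
      have k6 : 0 ≤ 8 * h ^ 6 := by positivity
      linarith
    have hFB : FB z r = 1 - (1 - z ^ 8) * (2 * (1 - r ^ 8) - (1 - z ^ 8)) := by
      unfold FB; ring
    have hbe : 1 - be z r = b * (2 * h - b) := by
      rw [be_eq]; ring
    have hkey : 13 * (b * (2 * h - b)) < (1 - z ^ 8) * (2 * (1 - r ^ 8) - (1 - z ^ 8)) := by
      have q1 : 12 * h - 8 * b ≤ 2 * (1 - r ^ 8) - (1 - z ^ 8) := by linarith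
      have q2 : 0 ≤ 12 * h - 8 * b := by linarith
      have q3 : 79 / 10 * b * (12 * h - 8 * b) ≤ (1 - z ^ 8) * (2 * (1 - r ^ 8) - (1 - z ^ 8)) :=
        mul_le_mul hP1 q1 q2 (by linarith)
      have q4 : 13 * (b * (2 * h - b)) < 79 / 10 * b * (12 * h - 8 * b) := by
        have : 13 * (2 * h - b) < 79 / 10 * (12 * h - 8 * b) := by linarith
        nlinarith
      linarith
    rw [hbe] at hbern
    linarith

end Pool.Agent.W154.STK
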