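import Pool.Agent.W154.STK.Ineq1

set_option autoImplicit false

namespace Pool.Agent.W154.STK

theorem le_of_sq' {a b : ℝ} (hb : 0 ≤ b) (h : a ^ 2 ≤ b ^ 2) : a ≤ b := by
  by_contra hc
  push Not at hc
  nlinarith

/-- basic facts on the curve -/
theorem curve_facts {x r z : ℝ} (hx1 : x < 1) (hrz : r ≤ z) (hz1 : z ≤ 1)
    (h : be z r = 2 * x - x ^ 2) : r ≤ x ∧ (z - r) ^ 2 = (x - r) * (2 - x - r) := by
  have h1 := be_sub z r x
  rw [h, sub_self] at h1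
  have h2 : (z - r) ^ 2 = (x - r) * (2 - x - r) := by linarith
  refine ⟨?_, h2⟩
  have h3 : 0 < 2 - x - r := by linarith
  have h4 : 0 ≤ (x - r) * (2 - x - r) := by rw [← h2]; positivity
  have := nonneg_of_mul_nonneg_left h4 h3
  linarith

theorem fpxx_lower {x : ℝ} (h0 : 0 ≤ x) (h1 : x ≤ 3 / 400) :
    199 / 100 * x ^ 10 ≤ Fp x x := by
  have e : Fp x x = (x ^ 2 + x ^ 8 * (1 - x ^ 2)) * (x ^ 8 * (2 - x ^ 8)) := by
    unfold Fp FA FB; ring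
  rw [e]
  have a1 : x ^ 8 ≤ 1 / 100 := by
    calc x ^ 8 ≤ (3 / 400) ^ 8 := pow_le_pow_left₀ h0 h1 8
      _ ≤ _ := by norm_num
  have a2 : x ^ 2 ≤ 1 := pow_le_one₀ h0 (by linarith)
  have a3 : 0 ≤ x ^ 8 * (1 - x ^ 2) := mul_nonneg (by positivity) (by linarith)
  calc 199 / 100 * x ^ 10 = x ^ 2 * (x ^ 8 * (199 / 100)) := by ring
    _ ≤ (x ^ 2 + x ^ 8 * (1 - x ^ 2)) * (x ^ 8 * (2 - x ^ 8)) := by
      apply mul_le_mul
      · linarith
      · apply mul_le_mul_of_nonneg_left _ (by positivity); linarith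
      · positivity
      · positivity

/-- close to the quasi-star -/
theorem up {x r z : ℝ} (hx0 : 0 < x) (hx : x ≤ 3 / 400) (hr : 7 / 10 * x ≤ r) (hrx : r < x)
    (hrz : r ≤ z) (h : be z r = 2 * x - x ^ 2) (hz1 : z ≤ 1) : Fp z r < Fp x x := by
  obtain ⟨-, hy⟩ := curve_facts (by linarith) hrz hz1 h
  set y := z - r with hydef
  have hy0 : 0 ≤ y := by linarith
  have hr0 : 0 < r := by linarith
  set d := x - r with hd
  have hd0 : 0 < d := by linarith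
  have hdx : d ≤ 3 / 10 * x := by linarith
  have hy2 : y ^ 2 ≤ 2 * d := by
    rw [hy]; linarith [mul_nonneg hd0.le (add_nonneg hx0.le hr0.le)]
  have hyb : y ≤ 68 / 1000 := by
    apply le_of_sq' (by norm_num)
    linarith
  have hzb : z ≤ 76 / 1000 := by linarith
  have hz0 : 0 < z := by linarith
  have hz2 : z ^ 2 ≤ 71 / 100 * x := by
    have : z ^ 2 = 2 * x - x ^ 2 - 2 * r * (1 - z) := by unfold be at h; linarith
    rw [this]
    have e1 : 7 / 10 * x * (924 / 1000) ≤ r * (1 - z) :=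
      mul_le_mul hr (by linarith) (by norm_num) hr0.le
    linarith [sq_nonneg x]
  have hr2 : r ^ 2 ≤ x ^ 2 := pow_le_pow_left₀ hr0.le hrx.le 2
  have hx2 : x ^ 2 ≤ 1 / 100 * x := by
    rw [pow_two]
    exact mul_le_mul_of_nonneg_right (by linarith) hx0.le
  have k1 : z ^ 2 + r ^ 2 ≤ 72 / 100 * x := by linarith
  have k2 : z ^ 4 + r ^ 4 ≤ 51 / 100 * x ^ 2 := by
    have e1 : z ^ 4 ≤ (71 / 100 * x) ^ 2 := by
      calc z ^ 4 = (z ^ 2) ^ 2 := by ring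
        _ ≤ _ := pow_le_pow_left₀ (by positivity) hz2 2
    have e2 : r ^ 4 ≤ (1 / 100) ^ 2 * x ^ 2 := by
      calc r ^ 4 = (r ^ 2) ^ 2 := by ring
        _ ≤ (1 / 100 * x) ^ 2 := pow_le_pow_left₀ (by positivity) (hr2.trans hx2) 2
        _ = _ := by ring
    linarith [sq_nonneg x]
  have hQ : (z ^ 2 + r ^ 2) * (z ^ 4 + r ^ 4) ≤ 37 / 100 * x ^ 3 := by
    calc (z ^ 2 + r ^ 2) * (z ^ 4 + r ^ 4) ≤ (72 / 100 * x) * (51 / 100 * x ^ 2) :=
          mul_le_mul k1 k2 (by positivity) (by positivity)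
      _ = (72 * 51 / 10000) * x ^ 3 := by ring
      _ ≤ 37 / 100 * x ^ 3 := by
        apply mul_le_mul_of_nonneg_right _ (by positivity); norm_num
  have hQ0 : 0 ≤ (z ^ 2 + r ^ 2) * (z ^ 4 + r ^ 4) := by positivity
  have hdiff : z ^ 2 - r ^ 2 = y * (2 * r + y) := by rw [hydef]; ring
  have hM : (z ^ 2 - r ^ 2) ^ 2 ≤ 26 / 10 * (x * d) := by
    rw [hdiff, mul_pow]
    have e1 : (2 * r + y) ^ 2 ≤ 13 / 10 * x := by
      linarith [sq_nonneg (2 * r - y)]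
    calc y ^ 2 * (2 * r + y) ^ 2 ≤ (2 * d) * (13 / 10 * x) :=
          mul_le_mul hy2 e1 (by positivity) (by positivity)
      _ = _ := by ring
  have hfac : z ^ 8 - r ^ 8 = (z ^ 2 - r ^ 2) * ((z ^ 2 + r ^ 2) * (z ^ 4 + r ^ 4)) := by ring
  have hxr : 3 * x ^ 7 * d ≤ x ^ 8 - r ^ 8 := by
    have e0 : x ^ 8 - r ^ 8 = d * ((x + r) * ((x ^ 2 + r ^ 2) * (x ^ 4 + r ^ 4))) := by
      rw [hd]; ring
    have e1 : 17 / 10 * x ≤ x + r := by linarith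
    have e2 : 149 / 100 * x ^ 2 ≤ x ^ 2 + r ^ 2 := by
      have := pow_le_pow_left₀ (by positivity) hr 2
      linarith
    have e3 : 124 / 100 * x ^ 4 ≤ x ^ 4 + r ^ 4 := by
      have := pow_le_pow_left₀ (by positivity) hr 4
      linarith [pow_pos hx0 4]
    have e4 : 17 / 10 * x * (149 / 100 * x ^ 2 * (124 / 100 * x ^ 4)) ≤
        (x + r) * ((x ^ 2 + r ^ 2) * (x ^ 4 + r ^ 4)) := by
      apply mul_le_mul e1 _ (by positivity) (by positivity)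
      exact mul_le_mul e2 e3 (by positivity) (by positivity)
    rw [e0]
    calc 3 * x ^ 7 * d ≤ d * (17 / 10 * x * (149 / 100 * x ^ 2 * (124 / 100 * x ^ 4))) := by
          have : 0 ≤ x ^ 7 * d := by positivity
          linarith
      _ ≤ _ := mul_le_mul_of_nonneg_left e4 hd0.le
  -- FA
  have hAlt : FA z r < FA x x := by
    rw [FA_eq, FA_eq x x, hfac]
    have e1 : (z ^ 2 - r ^ 2) * ((z ^ 2 - r ^ 2) * ((z ^ 2 + r ^ 2) * (z ^ 4 + r ^ 4))) ≤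
        26 / 10 * (x * d) * (37 / 100 * x ^ 3) := by
      calc _ = (z ^ 2 - r ^ 2) ^ 2 * ((z ^ 2 + r ^ 2) * (z ^ 4 + r ^ 4)) := by ring
        _ ≤ _ := mul_le_mul hM hQ hQ0 (by positivity)
    have e2 : r ^ 8 * (1 - r ^ 2) ≤ x ^ 8 * (1 - x ^ 2) := by
      have : x ^ 8 * (1 - x ^ 2) - r ^ 8 * (1 - r ^ 2) =
          (x ^ 8 - r ^ 8) - (x ^ 10 - r ^ 10) := by ring
      have h10 : x ^ 10 - r ^ 10 = x ^ 2 * (x ^ 8 - r ^ 8) + r ^ 8 * (x ^ 2 - r ^ 2) := by ring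
      have h11 : r ^ 8 * (x ^ 2 - r ^ 2) ≤ x ^ 7 * d := by
        have : x ^ 2 - r ^ 2 = d * (x + r) := by rw [hd]; ring
        rw [this]
        have q1 : r ^ 8 ≤ x ^ 8 := pow_le_pow_left₀ hr0.le hrx.le 8
        calc r ^ 8 * (d * (x + r)) ≤ x ^ 8 * (d * (x + r)) :=
              mul_le_mul_of_nonneg_right q1 (by positivity)
          _ = x ^ 7 * d * (x * (x + r)) := by ring
          _ ≤ x ^ 7 * d * 1 := by
              apply mul_le_mul_of_nonneg_left _ (by positivity)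
              calc x * (x + r) ≤ 1 * 1 :=
                    mul_le_mul (by linarith) (by linarith) (by positivity) (by norm_num)
                _ = 1 := one_mul 1
          _ = _ := by ring
      have h12 : x ^ 2 * (x ^ 8 - r ^ 8) ≤ 1 / 2 * (x ^ 8 - r ^ 8) := by
        apply mul_le_mul_of_nonneg_right _ (by
          have : 0 ≤ 3 * x ^ 7 * d := by positivity
          linarith)
        linarith
      have h13 : 0 ≤ x ^ 7 * d := by positivity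
      linarith
    have e3 : x ^ 2 - r ^ 2 = d * (x + r) := by rw [hd]; ring
    have e4 : 17 / 10 * (x * d) ≤ d * (x + r) := by
      have : d * (17 / 10 * x) ≤ d * (x + r) := mul_le_mul_of_nonneg_left (by linarith) hd0.le
      linarith
    have e5 : 26 / 10 * (x * d) * (37 / 100 * x ^ 3) < 17 / 10 * (x * d) := by
      have : x ^ 3 < 1 := pow_lt_one₀ hx0.le (by linarith) (by norm_num)
      have hxd : 0 < x * d := by positivity
      have := mul_lt_mul_of_pos_left this hxd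
      linarith
    have e6 : x ^ 2 + x ^ 8 - x ^ 10 + (x ^ 2 - x ^ 2) * (x ^ 8 - x ^ 8) =
        x ^ 2 + x ^ 8 * (1 - x ^ 2) := by ring
    have e7 : r ^ 2 + r ^ 8 - r ^ 10 = r ^ 2 + r ^ 8 * (1 - r ^ 2) := by ring
    rw [e6, e7]
    linarith
  have hBlt : FB z r < FB x x := by
    rw [FB_eq, FB_eq x x, hfac, sub_self, zero_pow (by norm_num), mul_pow]
    have e1 : ((z ^ 2 + r ^ 2) * (z ^ 4 + r ^ 4)) ^ 2 ≤ (37 / 100 * x ^ 3) ^ 2 :=
      pow_le_pow_left₀ hQ0 hQ 2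
    have e2 : (z ^ 2 - r ^ 2) ^ 2 * ((z ^ 2 + r ^ 2) * (z ^ 4 + r ^ 4)) ^ 2 ≤
        26 / 10 * (x * d) * (37 / 100 * x ^ 3) ^ 2 :=
      mul_le_mul hM e1 (by positivity) (by positivity)
    have e3 : (2 * x ^ 8 - x ^ 16) - (2 * r ^ 8 - r ^ 16) = (x ^ 8 - r ^ 8) * (2 - x ^ 8 - r ^ 8) := by
      ring
    have e4 : x ^ 8 ≤ 1 / 100 := by
      calc x ^ 8 ≤ (3 / 400) ^ 8 := pow_le_pow_left₀ hx0.le hx 8
        _ ≤ _ := by norm_num
    have e5 : r ^ 8 ≤ x ^ 8 := pow_le_pow_left₀ hr0.le hrx.le 8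
    have e6 : 3 * x ^ 7 * d * 1 ≤ (x ^ 8 - r ^ 8) * (2 - x ^ 8 - r ^ 8) :=
      mul_le_mul hxr (by linarith) (by norm_num) (by linarith)
    have e7 : 26 / 10 * (x * d) * (37 / 100 * x ^ 3) ^ 2 < 3 * x ^ 7 * d * 1 := by
      have : 0 < x ^ 7 * d := by positivity
      linarith
    linarith
  unfold Fp
  have hA0 : 0 ≤ FA z r := FA_nonneg hr0.le hrz hz1
  have hB0 : 0 ≤ FB z r := FB_nonneg hr0.le hrz hz1
  exact mul_lt_mul'' hAlt hBlt hA0 hB0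

theorem zsq_le {x r z : ℝ} (hr : 0 ≤ r) (hz1 : z ≤ 1) (h : be z r = 2 * x - x ^ 2) :
    z ^ 2 ≤ 2 * x := by
  unfold be at h
  linarith [mul_nonneg hr (sub_nonneg.2 hz1), sq_nonneg x]

/-- close to the quasi-clique -/
theorem low {x r z : ℝ} (hx0 : 0 < x) (hx : x ≤ 3 / 400) (hr0 : 0 ≤ r) (hr : r ≤ 2 / 25 * x)
    (hrz : r ≤ z) (h : be z r = 2 * x - x ^ 2) (hz1 : z ≤ 1) : Fp z r < Fp x x := by
  have hz0 : 0 ≤ z := hr0.trans hrz
  have hz2 := zsq_le hr0 hz1 h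
  have h8 : z ^ 8 ≤ 1 := pow_le_one₀ hz0 hz1
  have h22 : z ^ 2 ≤ 1 := pow_le_one₀ hz0 hz1
  have a1 : z ^ 10 ≤ 1 / 10000 * x ^ 2 := by
    calc z ^ 10 = (z ^ 2) ^ 5 := by ring
      _ ≤ (2 * x) ^ 5 := pow_le_pow_left₀ (by positivity) hz2 5
      _ = 32 * x ^ 3 * x ^ 2 := by ring
      _ ≤ 1 / 10000 * x ^ 2 := by
        apply mul_le_mul_of_nonneg_right _ (by positivity)
        have : x ^ 3 ≤ (3 / 400) ^ 3 := pow_le_pow_left₀ hx0.le hx 3
        norm_num at this ⊢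
        linarith
  have a2 : r ^ 2 ≤ 64 / 10000 * x ^ 2 := by
    calc r ^ 2 ≤ (2 / 25 * x) ^ 2 := pow_le_pow_left₀ hr0 hr 2
      _ = _ := by ring
  have a3 : r ^ 8 ≤ 1 / 10000 * x ^ 8 := by
    calc r ^ 8 ≤ (2 / 25 * x) ^ 8 := pow_le_pow_left₀ hr0 hr 8
      _ = (2 / 25) ^ 8 * x ^ 8 := by ring
      _ ≤ _ := by
        apply mul_le_mul_of_nonneg_right _ (by positivity); norm_num
  have a4 : x ^ 8 ≤ x ^ 2 := pow_le_pow_of_le_one hx0.le (by linarith) (by norm_num)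
  have bA : FA z r ≤ 67 / 10000 * x ^ 2 := by
    unfold FA
    have e1 : r ^ 2 * (1 - z ^ 8) ≤ r ^ 2 := by
      linarith [mul_nonneg (sq_nonneg r) (pow_nonneg hz0 8)]
    have e2 : r ^ 8 * (1 - z ^ 2) ≤ r ^ 8 := by
      linarith [mul_nonneg (pow_nonneg hr0 8) (pow_nonneg hz0 2)]
    linarith [sq_nonneg x]
  have bB : FB z r ≤ 257 * x ^ 8 := by
    unfold FB
    have e1 : z ^ 16 ≤ 256 * x ^ 8 := by
      calc z ^ 16 = (z ^ 2) ^ 8 := by ring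
        _ ≤ (2 * x) ^ 8 := pow_le_pow_left₀ (by positivity) hz2 8
        _ = _ := by ring
    have e2 : 2 * r ^ 8 * (1 - z ^ 8) ≤ 2 * r ^ 8 := by
      linarith [mul_nonneg (pow_nonneg hr0 8) (pow_nonneg hz0 8)]
    linarith [pow_pos hx0 8]
  have hB0 : 0 ≤ FB z r := FB_nonneg hr0 hrz hz1
  have h1 : Fp z r ≤ (67 / 10000 * x ^ 2) * (257 * x ^ 8) := by
    unfold Fp
    exact mul_le_mul bA bB hB0 (by positivity)
  have h2 := fpxx_lower hx0.le hx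
  have h3 : (67 / 10000 * x ^ 2) * (257 * x ^ 8) < 199 / 100 * x ^ 10 := by
    have : 0 < x ^ 10 := by positivity
    linarith
  linarith

theorem amgm {t : ℝ} (h0 : 0 ≤ t) (h1 : t ≤ 1) : t * (1 - t) ^ 4 ≤ 256 / 3125 := by
  have e : 256 / 3125 - t * (1 - t) ^ 4 =
      (t - 1 / 5) ^ 2 * (16 / 125 + (1 - t) * ((t - 13 / 10) ^ 2 + 23 / 100)) := by ring
  have : 0 ≤ (t - 1 / 5) ^ 2 * (16 / 125 + (1 - t) * ((t - 13 / 10) ^ 2 + 23 / 100)) := by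
    have := sub_nonneg.2 h1
    positivity
  linarith

/-- for very small `x` the quasi-star wins -/
theorem small {x r z : ℝ} (hx0 : 0 < x) (hx : x ≤ 1 / 1000) (hr0 : 0 ≤ r) (hr : r ≤ 7 / 10 * x)
    (hrz : r ≤ z) (h : be z r = 2 * x - x ^ 2) (hz1 : z ≤ 1) : Fp z r < Fp x x := by
  have hz0 : 0 ≤ z := hr0.trans hrz
  have hz2 := zsq_le hr0 hz1 h
  have h8 : z ^ 8 ≤ 1 := pow_le_one₀ hz0 hz1
  have h22 : z ^ 2 ≤ 1 := pow_le_one₀ hz0 hz1
  have hzb : z ≤ 45 / 1000 := by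
    apply le_of_sq' (by norm_num)
    linarith
  set t := r / x * (1 - z) with ht
  have ht0 : 0 ≤ t := by
    have := sub_nonneg.2 hz1
    positivity
  have hrx : r / x ≤ 7 / 10 := by rw [div_le_iff₀ hx0]; linarith
  have hrx0 : 0 ≤ r / x := by positivity
  have ht1 : t ≤ 1 := by
    rw [ht]
    calc r / x * (1 - z) ≤ 1 * 1 :=
          mul_le_mul (by linarith) (by linarith) (by linarith) (by norm_num)
      _ = 1 := one_mul 1
  have hztx : z ^ 2 ≤ 2 * x * (1 - t) := by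
    have : 2 * x * (1 - t) = 2 * x - 2 * r * (1 - z) := by rw [ht]; field_simp
    rw [this]
    unfold be at h
    linarith [sq_nonneg x]
  have hr2 : r ^ 2 ≤ 11 / 10 * (x ^ 2 * t ^ 2) := by
    have e1 : r = x * (r / x) := by field_simp
    have e2 : t ^ 2 = (r / x) ^ 2 * (1 - z) ^ 2 := by rw [ht]; ring
    have e3 : 1 ≤ 11 / 10 * (1 - z) ^ 2 := by
      have : (955 / 1000 : ℝ) ^ 2 ≤ (1 - z) ^ 2 := pow_le_pow_left₀ (by norm_num) (by linarith) 2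
      linarith
    calc r ^ 2 = (x * (r / x)) ^ 2 * 1 := by rw [← e1, mul_one]
      _ ≤ (x * (r / x)) ^ 2 * (11 / 10 * (1 - z) ^ 2) := mul_le_mul_of_nonneg_left e3 (by positivity)
      _ = _ := by rw [e2]; ring
  have hr8 : r ^ 8 ≤ 58 / 1000 * x ^ 8 := by
    calc r ^ 8 ≤ (7 / 10 * x) ^ 8 := pow_le_pow_left₀ hr0 hr 8
      _ = (7 / 10) ^ 8 * x ^ 8 := by ring
      _ ≤ _ := by
        apply mul_le_mul_of_nonneg_right _ (by positivity); norm_num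
  have hr2' : r ^ 2 ≤ 49 / 100 * x ^ 2 := by
    calc r ^ 2 ≤ (7 / 10 * x) ^ 2 := pow_le_pow_left₀ hr0 hr 2
      _ = _ := by ring
  have hz10 : z ^ 10 ≤ 1 / 10 ^ 6 * x ^ 2 := by
    calc z ^ 10 = (z ^ 2) ^ 5 := by ring
      _ ≤ (2 * x) ^ 5 := pow_le_pow_left₀ (by positivity) hz2 5
      _ = 32 * x ^ 3 * x ^ 2 := by ring
      _ ≤ 1 / 10 ^ 6 * x ^ 2 := by
        apply mul_le_mul_of_nonneg_right _ (by positivity)
        have : x ^ 3 ≤ (1 / 1000) ^ 3 := pow_le_pow_left₀ hx0.le hx 3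
        norm_num at this ⊢
        linarith
  have hx8 : x ^ 8 ≤ 1 / 10 ^ 6 * x ^ 2 := by
    calc x ^ 8 = x ^ 6 * x ^ 2 := by ring
      _ ≤ (1 / 1000) ^ 6 * x ^ 2 := by
        apply mul_le_mul_of_nonneg_right _ (by positivity)
        exact pow_le_pow_left₀ hx0.le hx 6
      _ ≤ _ := by
        apply mul_le_mul_of_nonneg_right _ (by positivity); norm_num
  have bA : FA z r ≤ r ^ 2 + 2 / 10 ^ 6 * x ^ 2 := by
    unfold FA
    have e1 : r ^ 2 * (1 - z ^ 8) ≤ r ^ 2 := by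
      linarith [mul_nonneg (sq_nonneg r) (pow_nonneg hz0 8)]
    have e2 : r ^ 8 * (1 - z ^ 2) ≤ r ^ 8 := by
      linarith [mul_nonneg (pow_nonneg hr0 8) (pow_nonneg hz0 2)]
    have e3 : r ^ 8 ≤ x ^ 8 := pow_le_pow_left₀ hr0 (by linarith) 8
    linarith
  have bB : FB z r ≤ 256 * x ^ 8 * (1 - t) ^ 8 + 2 * (58 / 1000 * x ^ 8) := by
    unfold FB
    have e1 : z ^ 16 ≤ 256 * x ^ 8 * (1 - t) ^ 8 := by
      calc z ^ 16 = (z ^ 2) ^ 8 := by ring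
        _ ≤ (2 * x * (1 - t)) ^ 8 := pow_le_pow_left₀ (by positivity) hztx 8
        _ = _ := by ring
    have e2 : 2 * r ^ 8 * (1 - z ^ 8) ≤ 2 * r ^ 8 := by
      linarith [mul_nonneg (pow_nonneg hr0 8) (pow_nonneg hz0 8)]
    linarith
  have hB0 : 0 ≤ FB z r := FB_nonneg hr0 hrz hz1
  have h1 : Fp z r ≤ (r ^ 2 + 2 / 10 ^ 6 * x ^ 2) * (256 * x ^ 8 * (1 - t) ^ 8 + 2 * (58 / 1000 * x ^ 8)) := by
    unfold Fp
    exact mul_le_mul bA bB hB0 (by positivity)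
  have h2 := fpxx_lower hx0.le (by linarith)
  -- main term
  have hag := amgm ht0 ht1
  have hag2 : t ^ 2 * (1 - t) ^ 8 ≤ 6711 / 10 ^ 6 := by
    have e0 : 0 ≤ t * (1 - t) ^ 4 := by
      have := sub_nonneg.2 ht1
      positivity
    calc t ^ 2 * (1 - t) ^ 8 = (t * (1 - t) ^ 4) ^ 2 := by ring
      _ ≤ (256 / 3125) ^ 2 := pow_le_pow_left₀ e0 hag 2
      _ ≤ _ := by norm_num
  have hx10 : 0 < x ^ 10 := by positivity
  have m1 : r ^ 2 * (256 * x ^ 8 * (1 - t) ^ 8) ≤ 1892 / 1000 * x ^ 10 := by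
    calc r ^ 2 * (256 * x ^ 8 * (1 - t) ^ 8)
        ≤ 11 / 10 * (x ^ 2 * t ^ 2) * (256 * x ^ 8 * (1 - t) ^ 8) :=
          mul_le_mul_of_nonneg_right hr2 (by
            have := sub_nonneg.2 ht1
            positivity)
      _ = 11 / 10 * 256 * x ^ 10 * (t ^ 2 * (1 - t) ^ 8) := by ring
      _ ≤ 11 / 10 * 256 * x ^ 10 * (6711 / 10 ^ 6) := mul_le_mul_of_nonneg_left hag2 (by positivity)
      _ ≤ _ := by linarith
  have m2 : r ^ 2 * (2 * (58 / 1000 * x ^ 8)) ≤ 57 / 1000 * x ^ 10 := by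
    calc r ^ 2 * (2 * (58 / 1000 * x ^ 8)) ≤ 49 / 100 * x ^ 2 * (2 * (58 / 1000 * x ^ 8)) :=
          mul_le_mul_of_nonneg_right hr2' (by positivity)
      _ = (49 / 100 * 2 * 58 / 1000) * x ^ 10 := by ring
      _ ≤ _ := by linarith
  have m3 : 2 / 10 ^ 6 * x ^ 2 * (256 * x ^ 8 * (1 - t) ^ 8) ≤ 1 / 1000 * x ^ 10 := by
    have : (1 - t) ^ 8 ≤ 1 := pow_le_one₀ (sub_nonneg.2 ht1) (by linarith)
    calc 2 / 10 ^ 6 * x ^ 2 * (256 * x ^ 8 * (1 - t) ^ 8)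
        ≤ 2 / 10 ^ 6 * x ^ 2 * (256 * x ^ 8 * 1) := by
          apply mul_le_mul_of_nonneg_left _ (by positivity)
          exact mul_le_mul_of_nonneg_left this (by positivity)
      _ = (512 / 10 ^ 6) * x ^ 10 := by ring
      _ ≤ _ := by linarith
  have m4 : 2 / 10 ^ 6 * x ^ 2 * (2 * (58 / 1000 * x ^ 8)) ≤ 1 / 1000 * x ^ 10 := by
    calc 2 / 10 ^ 6 * x ^ 2 * (2 * (58 / 1000 * x ^ 8)) = (2 / 10 ^ 6 * 2 * 58 / 1000) * x ^ 10 := by ring
      _ ≤ _ := by linarith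
  have h3 : (r ^ 2 + 2 / 10 ^ 6 * x ^ 2) * (256 * x ^ 8 * (1 - t) ^ 8 + 2 * (58 / 1000 * x ^ 8))
      ≤ (1951 / 1000) * x ^ 10 := by
    calc _ = r ^ 2 * (256 * x ^ 8 * (1 - t) ^ 8) + r ^ 2 * (2 * (58 / 1000 * x ^ 8)) +
        2 / 10 ^ 6 * x ^ 2 * (256 * x ^ 8 * (1 - t) ^ 8) +
        2 / 10 ^ 6 * x ^ 2 * (2 * (58 / 1000 * x ^ 8)) := by ring
      _ ≤ _ := by linarith
  linarith

end Pool.Agent.W154.STK
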