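import Pool.Agent.W154.STK.Ineq2

set_option autoImplicit false

namespace Pool.Agent.W154.STK

theorem pow8_diff {a b : ℝ} (h0 : 0 ≤ a) (h : a ≤ b) : 8 * a ^ 7 * (b - a) ≤ b ^ 8 - a ^ 8 := by
  have e : b ^ 8 - a ^ 8 = (b - a) * ((b + a) * ((b ^ 2 + a ^ 2) * (b ^ 4 + a ^ 4))) := by ring
  have h1 : 2 * a ≤ b + a := by linarith
  have h2 : 2 * a ^ 2 ≤ b ^ 2 + a ^ 2 := by linarith [pow_le_pow_left₀ h0 h 2]
  have h3 : 2 * a ^ 4 ≤ b ^ 4 + a ^ 4 := by linarith [pow_le_pow_left₀ h0 h 4]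
  have h4 : 2 * a * (2 * a ^ 2 * (2 * a ^ 4)) ≤ (b + a) * ((b ^ 2 + a ^ 2) * (b ^ 4 + a ^ 4)) := by
    have hb := h0.trans h
    apply mul_le_mul h1 _ (by positivity) (by positivity)
    exact mul_le_mul h2 h3 (by positivity) (by positivity)
  have h5 := mul_le_mul_of_nonneg_left h4 (sub_nonneg.2 h)
  rw [e]
  calc _ = (b - a) * (2 * a * (2 * a ^ 2 * (2 * a ^ 4))) := by ring
    _ ≤ _ := h5

theorem pow4_diff {a b : ℝ} (h0 : 0 ≤ a) (h : a ≤ b) : b ^ 4 - a ^ 4 ≤ 4 * b ^ 3 * (b - a) := by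
  have e : b ^ 4 - a ^ 4 = (b - a) * ((b + a) * (b ^ 2 + a ^ 2)) := by ring
  have h1 : b + a ≤ 2 * b := by linarith
  have h2 : b ^ 2 + a ^ 2 ≤ 2 * b ^ 2 := by linarith [pow_le_pow_left₀ h0 h 2]
  have hb := h0.trans h
  have h4 : (b + a) * (b ^ 2 + a ^ 2) ≤ 2 * b * (2 * b ^ 2) :=
    mul_le_mul h1 h2 (by positivity) (by positivity)
  have h5 := mul_le_mul_of_nonneg_left h4 (sub_nonneg.2 h)
  rw [e]
  calc _ ≤ _ := h5
    _ = _ := by ring

theorem pow3_diff {a b : ℝ} (h0 : 0 ≤ a) (h : a ≤ b) : b ^ 2 * (b - a) ≤ b ^ 3 - a ^ 3 := by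
  have hb := h0.trans h
  have : b ^ 3 - a ^ 3 - b ^ 2 * (b - a) = a * ((b - a) * (b + a)) := by ring
  have h2 : 0 ≤ a * ((b - a) * (b + a)) :=
    mul_nonneg h0 (mul_nonneg (sub_nonneg.2 h) (add_nonneg hb h0))
  linarith

/-- normalised densities in terms of `m = z^2 / x` and `u = r / x` -/
def aa (u x m : ℝ) : ℝ := u ^ 2 * (1 - (x * m) ^ 4) + m ^ 2 * (x * m) ^ 3 + u ^ 8 * x ^ 6 * (1 - x * m)

def bb (u x m : ℝ) : ℝ := m ^ 8 + 2 * u ^ 8 * (1 - (x * m) ^ 4)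

def pp (x : ℝ) : ℝ := (1 + x ^ 6 - x ^ 8) * (2 - x ^ 8)

theorem Fp_norm {u x m z : ℝ} (h : z ^ 2 = x * m) : Fp z (u * x) = x ^ 10 * (aa u x m * bb u x m) := by
  have h8 : z ^ 8 = (x * m) ^ 4 := by rw [← h]; ring
  have h16 : z ^ 16 = (x * m) ^ 8 := by rw [← h]; ring
  have h10 : z ^ 10 = (x * m) ^ 5 := by rw [← h]; ring
  unfold Fp FA FB aa bb
  rw [h8, h16, h10, h]
  ring

theorem Fp_self (x : ℝ) : Fp x x = x ^ 10 * pp x := by
  unfold Fp FA FB pp; ring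

theorem aa_mono {u x x' m m' : ℝ} (hu0 : 0 ≤ u) (hu : u ≤ 7 / 10) (hx0 : 0 < x) (hxx : x < x')
    (hx' : x' ≤ 3 / 400) (hm : 59 / 100 ≤ m) (hmm : m ≤ m') (hm' : m' ≤ 2) :
    aa u x m ≤ aa u x' m' := by
  set P := x' * m' with hP
  set Q := x * m with hQ
  have hm0 : 0 < m := by linarith
  have hQ0 : 0 < Q := mul_pos hx0 hm0
  have hQP : Q ≤ P := mul_le_mul hxx.le hmm hm0.le (by linarith)
  have hP1 : P ≤ 15 / 1000 := by
    calc P ≤ 3 / 400 * 2 := mul_le_mul hx' hm' (by linarith) (by norm_num)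
      _ = _ := by norm_num
  have hP0 : 0 < P := hQ0.trans_le hQP
  have k4 := pow4_diff hQ0.le hQP
  have k3 := pow3_diff hQ0.le hQP
  have hu2 : u ^ 2 ≤ 49 / 100 := by
    calc u ^ 2 ≤ (7 / 10) ^ 2 := pow_le_pow_left₀ hu0 hu 2
      _ = _ := by norm_num
  have hu8 : u ^ 8 ≤ 1 := pow_le_one₀ hu0 (by linarith)
  have hd : 0 ≤ P - Q := sub_nonneg.2 hQP
  have hPP : 0 ≤ P ^ 2 * (P - Q) := by positivity
  -- first term
  have t1 : u ^ 2 * (P ^ 4 - Q ^ 4) ≤ 3 / 100 * (P ^ 2 * (P - Q)) := by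
    have e1 : P ^ 4 - Q ^ 4 ≤ 6 / 100 * (P ^ 2 * (P - Q)) := by
      calc P ^ 4 - Q ^ 4 ≤ 4 * P ^ 3 * (P - Q) := k4
        _ = 4 * P * (P ^ 2 * (P - Q)) := by ring
        _ ≤ 6 / 100 * (P ^ 2 * (P - Q)) := mul_le_mul_of_nonneg_right (by linarith) hPP
    have e0 : 0 ≤ 6 / 100 * (P ^ 2 * (P - Q)) := by positivity
    calc u ^ 2 * (P ^ 4 - Q ^ 4) ≤ u ^ 2 * (6 / 100 * (P ^ 2 * (P - Q))) :=
          mul_le_mul_of_nonneg_left e1 (by positivity)
      _ ≤ 49 / 100 * (6 / 100 * (P ^ 2 * (P - Q))) := mul_le_mul_of_nonneg_right hu2 e0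
      _ ≤ _ := by linarith
  -- second term
  have t2 : 34 / 100 * (P ^ 2 * (P - Q)) ≤ m' ^ 2 * P ^ 3 - m ^ 2 * Q ^ 3 := by
    have e1 : m ^ 2 * P ^ 3 ≤ m' ^ 2 * P ^ 3 :=
      mul_le_mul_of_nonneg_right (pow_le_pow_left₀ hm0.le hmm 2) (by positivity)
    have e2 : m ^ 2 * (P ^ 2 * (P - Q)) ≤ m ^ 2 * (P ^ 3 - Q ^ 3) :=
      mul_le_mul_of_nonneg_left k3 (by positivity)
    have e3 : 34 / 100 ≤ m ^ 2 := by
      have := pow_le_pow_left₀ (by norm_num) hm 2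
      norm_num at this ⊢
      linarith
    have e4 := mul_le_mul_of_nonneg_right e3 hPP
    linarith
  -- third term
  have t3 : u ^ 8 * (x ^ 6 * (P - Q)) ≤ 1 / 100 * (P ^ 2 * (P - Q)) := by
    have e1 : x ^ 6 ≤ 1 / 100 * P ^ 2 := by
      have e2 : 59 / 100 * x' ≤ P := by
        rw [hP, mul_comm x' m']
        exact mul_le_mul_of_nonneg_right (by linarith) (by linarith)
      have e3 : (59 / 100 * x') ^ 2 ≤ P ^ 2 := pow_le_pow_left₀ (by linarith) e2 2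
      have e4 : x ^ 6 ≤ x' ^ 6 := pow_le_pow_left₀ hx0.le hxx.le 6
      have e5 : x' ^ 6 ≤ (3 / 400) ^ 4 * x' ^ 2 := by
        calc x' ^ 6 = x' ^ 4 * x' ^ 2 := by ring
          _ ≤ _ := mul_le_mul_of_nonneg_right (pow_le_pow_left₀ (by linarith) hx' 4) (by positivity)
      have e6 : 0 ≤ x' ^ 2 := by positivity
      norm_num at e5
      linarith
    have e7 : x ^ 6 * (P - Q) ≤ 1 / 100 * P ^ 2 * (P - Q) := mul_le_mul_of_nonneg_right e1 hd
    have e8 : 0 ≤ x ^ 6 * (P - Q) := by positivity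
    calc u ^ 8 * (x ^ 6 * (P - Q)) ≤ 1 * (x ^ 6 * (P - Q)) := mul_le_mul_of_nonneg_right hu8 e8
      _ ≤ _ := by linarith
  have t4 : 0 ≤ u ^ 8 * ((x' ^ 6 - x ^ 6) * (1 - P)) := by
    have := pow_le_pow_left₀ hx0.le hxx.le 6
    have h1 : 0 ≤ x' ^ 6 - x ^ 6 := by linarith
    have h2 : 0 ≤ 1 - P := by linarith
    positivity
  unfold aa
  rw [← hP, ← hQ]
  have : u ^ 2 * (1 - P ^ 4) + m' ^ 2 * P ^ 3 + u ^ 8 * x' ^ 6 * (1 - P) -
      (u ^ 2 * (1 - Q ^ 4) + m ^ 2 * Q ^ 3 + u ^ 8 * x ^ 6 * (1 - Q)) =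
      -(u ^ 2 * (P ^ 4 - Q ^ 4)) + (m' ^ 2 * P ^ 3 - m ^ 2 * Q ^ 3) - u ^ 8 * (x ^ 6 * (P - Q)) +
        u ^ 8 * ((x' ^ 6 - x ^ 6) * (1 - P)) := by ring
  linarith

theorem bb_diff {u x x' m m' : ℝ} (hu0 : 0 ≤ u) (hu : u ≤ 7 / 10) (hx0 : 0 < x) (hxx : x < x')
    (hx' : x' ≤ 3 / 400) (hm : 59 / 100 ≤ m) (hmm : 1 / 10 * (x' - x) ≤ m' - m) (hm' : m' ≤ 2) :
    1 / 100 * (x' - x) ≤ bb u x' m' - bb u x m := by
  set P := x' * m' with hP
  set Q := x * m with hQ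
  have hm0 : 0 < m := by linarith
  have hmm' : m ≤ m' := by linarith
  have hQ0 : 0 < Q := mul_pos hx0 hm0
  have hQP : Q ≤ P := mul_le_mul hxx.le hmm' hm0.le (by linarith)
  have hP1 : P ≤ 15 / 1000 := by
    calc P ≤ 3 / 400 * 2 := mul_le_mul hx' hm' (by linarith) (by norm_num)
      _ = _ := by norm_num
  have hP0 : 0 < P := hQ0.trans_le hQP
  have k4 := pow4_diff hQ0.le hQP
  have k8 := pow8_diff hm0.le hmm'
  have hu8 : u ^ 8 ≤ 1 := pow_le_one₀ hu0 (by linarith)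
  have hdm : 0 ≤ m' - m := by linarith
  have hdx : 0 < x' - x := by linarith
  have e1 : 24 / 1000 ≤ m ^ 7 := by
    have := pow_le_pow_left₀ (by norm_num) hm 7
    norm_num at this ⊢
    linarith
  have e2 : 24 / 1000 * (m' - m) ≤ m ^ 7 * (m' - m) := mul_le_mul_of_nonneg_right e1 hdm
  have e3 : P - Q ≤ (m' - m) + 2 * (x' - x) := by
    have : P - Q = x' * (m' - m) + m * (x' - x) := by rw [hP, hQ]; ring
    rw [this]
    have h1 : x' * (m' - m) ≤ 1 * (m' - m) := mul_le_mul_of_nonneg_right (by linarith) hdm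
    have h2 : m * (x' - x) ≤ 2 * (x' - x) := mul_le_mul_of_nonneg_right (by linarith) hdx.le
    linarith
  have e4 : P ^ 3 ≤ 1 / 100000 := by
    calc P ^ 3 ≤ (15 / 1000) ^ 3 := pow_le_pow_left₀ hP0.le hP1 3
      _ ≤ _ := by norm_num
  have e5 : P ^ 4 - Q ^ 4 ≤ 4 / 100000 * ((m' - m) + 2 * (x' - x)) := by
    calc P ^ 4 - Q ^ 4 ≤ 4 * P ^ 3 * (P - Q) := k4
      _ ≤ 4 * (1 / 100000) * ((m' - m) + 2 * (x' - x)) := by
        apply mul_le_mul _ e3 (by linarith) (by norm_num)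
        linarith
      _ = _ := by ring
  have e6 : 0 ≤ P ^ 4 - Q ^ 4 := by linarith [pow_le_pow_left₀ hQ0.le hQP 4]
  have e7 : u ^ 8 * (P ^ 4 - Q ^ 4) ≤ 1 * (P ^ 4 - Q ^ 4) := mul_le_mul_of_nonneg_right hu8 e6
  unfold bb
  rw [← hP, ← hQ]
  have : m' ^ 8 + 2 * u ^ 8 * (1 - P ^ 4) - (m ^ 8 + 2 * u ^ 8 * (1 - Q ^ 4)) =
      (m' ^ 8 - m ^ 8) - 2 * (u ^ 8 * (P ^ 4 - Q ^ 4)) := by ring
  linarith

theorem pp_diff {x x' : ℝ} (hx0 : 0 < x) (hxx : x < x') (hx' : x' ≤ 3 / 400) :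
    pp x' - pp x ≤ 1 / 10 ^ 6 * (x' - x) := by
  have h6 : x' ^ 6 - x ^ 6 ≤ 1 / 10 ^ 7 * (x' - x) := by
    have e : x' ^ 6 - x ^ 6 = (x' - x) * ((x' ^ 2 + x' * x + x ^ 2) * (x' ^ 3 + x ^ 3)) := by ring
    rw [e, mul_comm]
    apply mul_le_mul_of_nonneg_right _ (by linarith)
    have hx'0 : 0 < x' := by linarith
    have b1 : x' ^ 2 + x' * x + x ^ 2 ≤ 1 / 100 := by
      have q1 : x' * x ≤ 3 / 400 * (3 / 400) := mul_le_mul hx' (by linarith) hx0.le (by norm_num)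
      have q2 : x' ^ 2 ≤ (3 / 400) ^ 2 := pow_le_pow_left₀ hx'0.le hx' 2
      have q3 : x ^ 2 ≤ (3 / 400) ^ 2 := pow_le_pow_left₀ hx0.le (by linarith) 2
      norm_num at q1 q2 q3 ⊢
      linarith
    have b2 : x' ^ 3 + x ^ 3 ≤ 1 / 10 ^ 6 := by
      have q2 : x' ^ 3 ≤ (3 / 400) ^ 3 := pow_le_pow_left₀ hx'0.le hx' 3
      have q3 : x ^ 3 ≤ (3 / 400) ^ 3 := pow_le_pow_left₀ hx0.le (by linarith) 3
      norm_num at q2 q3 ⊢
      linarith
    calc _ ≤ (1 / 100 : ℝ) * (1 / 10 ^ 6) := mul_le_mul b1 b2 (by positivity) (by norm_num)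
      _ ≤ _ := by norm_num
  have h8 : x ^ 8 ≤ x' ^ 8 := pow_le_pow_left₀ hx0.le hxx.le 8
  have h8' : x' ^ 8 ≤ 1 := pow_le_one₀ (by linarith) (by linarith)
  have h66 : x ^ 6 ≤ x' ^ 6 := pow_le_pow_left₀ hx0.le hxx.le 6
  have hx8 : 0 ≤ x ^ 8 := by positivity
  unfold pp
  have e : (1 + x' ^ 6 - x' ^ 8) * (2 - x' ^ 8) - (1 + x ^ 6 - x ^ 8) * (2 - x ^ 8) =
      (x' ^ 6 - x ^ 6) * (2 - x' ^ 8) - (x' ^ 8 - x ^ 8) * (2 - x' ^ 8) -
        (1 + x ^ 6 - x ^ 8) * (x' ^ 8 - x ^ 8) := by ring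
  rw [e]
  have t1 : (x' ^ 6 - x ^ 6) * (2 - x' ^ 8) ≤ (x' ^ 6 - x ^ 6) * 2 :=
    mul_le_mul_of_nonneg_left (by linarith) (by linarith)
  have t2 : 0 ≤ (x' ^ 8 - x ^ 8) * (2 - x' ^ 8) := mul_nonneg (by linarith) (by linarith)
  have t3 : 0 ≤ (1 + x ^ 6 - x ^ 8) * (x' ^ 8 - x ^ 8) := by
    apply mul_nonneg _ (by linarith)
    have : x ^ 8 ≤ 1 := h8.trans h8'
    have : 0 ≤ x ^ 6 := by positivity
    linarith
  linarith

/-- the crucial monotonicity: the ratio `T/S` increases with `x` when `u = r/x` is fixed -/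
theorem ratio_mono {u x x' z z' : ℝ} (hu0 : 2 / 25 ≤ u) (hu : u ≤ 7 / 10) (hx0 : 0 < x)
    (hxx : x < x') (hx' : x' ≤ 3 / 400) (hrz : u * x ≤ z) (hrz' : u * x' ≤ z')
    (hz1 : z ≤ 1) (hz1' : z' ≤ 1)
    (h : be z (u * x) = 2 * x - x ^ 2) (h' : be z' (u * x') = 2 * x' - x' ^ 2) :
    Fp z (u * x) * Fp x' x' < Fp z' (u * x') * Fp x x := by
  have hup : 0 < u := by linarith
  have hx'0 : 0 < x' := by linarith
  have hr0 : 0 < u * x := by positivity
  have hr0' : 0 < u * x' := by positivity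
  have hz0 : 0 < z := hr0.trans_le hrz
  have hz0' : 0 < z' := hr0'.trans_le hrz'
  have hz2' := zsq_le hr0'.le hz1' h'
  have hz2 := zsq_le hr0.le hz1 h
  have hzb' : z' ≤ 1225 / 10000 := by
    apply le_of_sq' (by norm_num)
    norm_num
    linarith
  -- m
  set m := z ^ 2 / x with hmdef
  set m' := z' ^ 2 / x' with hmdef'
  have hzm : z ^ 2 = x * m := by rw [hmdef]; field_simp
  have hzm' : z' ^ 2 = x' * m' := by rw [hmdef']; field_simp
  have hmu : m = 2 - x - 2 * u * (1 - z) := by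
    rw [hmdef]; unfold be at h; field_simp; linarith
  have hmu' : m' = 2 - x' - 2 * u * (1 - z') := by
    rw [hmdef']; unfold be at h'; field_simp; linarith
  -- z' - 2 u x' > 0
  obtain ⟨-, hy'⟩ := curve_facts (by linarith : x' < 1) hrz' hz1' h'
  have hz2u : 2 * (u * x') < z' := by
    have e1 : (u * x') ^ 2 < (z' - u * x') ^ 2 := by
      rw [hy']
      have e2 : 3 / 10 * x' ≤ x' - u * x' := by
        have := mul_le_mul_of_nonneg_right hu hx'0.le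
        linarith
      have e3 : (1:ℝ) ≤ 2 - x' - u * x' := by
        have := mul_le_mul_of_nonneg_right hu hx'0.le
        linarith
      have e4 : 3 / 10 * x' * 1 ≤ (x' - u * x') * (2 - x' - u * x') :=
        mul_le_mul e2 e3 (by norm_num) (by linarith)
      have e5 : (u * x') ^ 2 ≤ 1 / 100 * x' := by
        have e6 : u * x' ≤ 1 * x' := mul_le_mul_of_nonneg_right (by linarith) hx'0.le
        calc (u * x') ^ 2 ≤ (1 * x') ^ 2 := pow_le_pow_left₀ hr0'.le e6 2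
          _ = x' * x' := by ring
          _ ≤ 1 / 100 * x' := mul_le_mul_of_nonneg_right (by linarith) hx'0.le
      linarith
    have := lt_of_pow_lt_pow_left₀ 2 (by linarith : 0 ≤ z' - u * x') e1
    linarith
  -- identity
  have hid : (z' - z) * (z' + z - 2 * (u * x')) = (x' - x) * (2 - 2 * u - x - x' + 2 * u * z) := by
    unfold be at h h'
    linear_combination h' - h
  have hdx : 0 < x' - x := by linarith
  have hpos1 : 0 < 2 - 2 * u - x - x' + 2 * u * z := by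
    have : 0 ≤ 2 * u * z := by positivity
    linarith
  have hpos2 : 0 < z' + z - 2 * (u * x') := by linarith
  have hzz : 0 < z' - z := by
    have : 0 < (z' - z) * (z' + z - 2 * (u * x')) := by rw [hid]; positivity
    by_contra hc
    push Not at hc
    linarith [mul_nonpos_of_nonpos_of_nonneg hc hpos2.le]
  have hdz : 11 / 10 * (x' - x) ≤ 2 * u * (z' - z) := by
    have hb : z' + z - 2 * (u * x') ≤ 245 / 1000 := by linarith
    have hq : 27 / 100 ≤ 2 * u * (2 - 2 * u - x - x' + 2 * u * z) := by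
      have q1 : 1985 / 1000 - 2 * u ≤ 2 - 2 * u - x - x' + 2 * u * z := by
        have : 0 ≤ 2 * u * z := by positivity
        linarith
      have q2 : 2 * u * (1985 / 1000 - 2 * u) ≤ 2 * u * (2 - 2 * u - x - x' + 2 * u * z) :=
        mul_le_mul_of_nonneg_left q1 (by positivity)
      have q3 : 0 ≤ (u - 2 / 25) * (7 / 10 - u) := mul_nonneg (by linarith) (by linarith)
      linarith
    -- multiply
    have k1 : 27 / 100 * (x' - x) ≤ 2 * u * ((z' - z) * (z' + z - 2 * (u * x'))) := by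
      rw [hid]
      calc 27 / 100 * (x' - x) ≤ 2 * u * (2 - 2 * u - x - x' + 2 * u * z) * (x' - x) :=
            mul_le_mul_of_nonneg_right hq hdx.le
        _ = _ := by ring
    have k2 : 2 * u * ((z' - z) * (z' + z - 2 * (u * x'))) ≤ 2 * u * ((z' - z) * (245 / 1000)) := by
      apply mul_le_mul_of_nonneg_left _ (by positivity)
      exact mul_le_mul_of_nonneg_left hb hzz.le
    linarith
  have hdm : 1 / 10 * (x' - x) ≤ m' - m := by
    rw [hmu, hmu']; linarith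
  have hm0 : 59 / 100 ≤ m := by
    rw [hmu]
    have : 0 ≤ 2 * u * z := by positivity
    linarith
  have hm2 : m' ≤ 2 := by
    rw [hmu']
    have : 0 ≤ 2 * u * (1 - z') := mul_nonneg (by positivity) (by linarith)
    linarith
  have hA := aa_mono hup.le hu hx0 hxx hx' hm0 (by linarith) hm2
  have hB := bb_diff hup.le hu hx0 hxx hx' hm0 hdm hm2
  have hp := pp_diff hx0 hxx hx'
  rw [Fp_norm hzm, Fp_norm hzm', Fp_self, Fp_self]
  have hxm : x * m ≤ 15 / 1000 := by rw [← hzm]; linarith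
  have hxm0 : 0 ≤ x * m := by rw [← hzm]; positivity
  have hu2 : (2 / 25) ^ 2 ≤ u ^ 2 := pow_le_pow_left₀ (by norm_num) hu0 2
  have haa : 0 < aa u x m := by
    unfold aa
    have q1 : (x * m) ^ 4 ≤ 1 / 2 := by
      calc (x * m) ^ 4 ≤ (15 / 1000) ^ 4 := pow_le_pow_left₀ hxm0 hxm 4
        _ ≤ _ := by norm_num
    have q2 : 0 < u ^ 2 * (1 - (x * m) ^ 4) := mul_pos (by positivity) (by linarith)
    have q3 : 0 ≤ m ^ 2 * (x * m) ^ 3 := by positivity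
    have q4 : 0 ≤ u ^ 8 * x ^ 6 * (1 - x * m) := mul_nonneg (by positivity) (by linarith)
    linarith
  have hbb : bb u x m ≤ 258 := by
    unfold bb
    have q1 : m ^ 8 ≤ 256 := by
      calc m ^ 8 ≤ 2 ^ 8 := pow_le_pow_left₀ (by linarith) (by linarith) 8
        _ = _ := by norm_num
    have q2 : u ^ 8 ≤ 1 := pow_le_one₀ hup.le (by linarith)
    have q3 : 2 * u ^ 8 * (1 - (x * m) ^ 4) ≤ 2 * u ^ 8 := by
      linarith [mul_nonneg (pow_nonneg hup.le 8) (pow_nonneg hxm0 4)]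
    linarith
  have hbb0 : 0 ≤ bb u x m := by
    unfold bb
    have q1 : (x * m) ^ 4 ≤ 1 := pow_le_one₀ hxm0 (by linarith)
    have q2 : 0 ≤ 2 * u ^ 8 * (1 - (x * m) ^ 4) := mul_nonneg (by positivity) (by linarith)
    have q3 : 0 ≤ m ^ 8 := by positivity
    linarith
  have hpp : 1 ≤ pp x := by
    unfold pp
    have q1 : x ^ 8 ≤ x ^ 6 := pow_le_pow_of_le_one hx0.le (by linarith) (by norm_num)
    have q2 : x ^ 8 ≤ 1 := pow_le_one₀ hx0.le (by linarith)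
    calc (1:ℝ) = 1 * 1 := by norm_num
      _ ≤ _ := mul_le_mul (by linarith) (by linarith) (by norm_num) (by linarith)
  -- compare
  have key : aa u x m * bb u x m * pp x' < aa u x' m' * bb u x' m' * pp x := by
    have s1 : bb u x m * pp x' < bb u x' m' * pp x := by
      have s2 : bb u x m * (pp x' - pp x) ≤ 258 * (1 / 10 ^ 6 * (x' - x)) := by
        by_cases hs : 0 ≤ pp x' - pp x
        · exact mul_le_mul hbb hp hs (by norm_num)
        · push Not at hs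
          have := mul_nonneg hbb0 (neg_nonneg.2 hs.le)
          have h3 : 0 ≤ 258 * (1 / 10 ^ 6 * (x' - x)) := by positivity
          linarith
      have s3 : 1 / 100 * (x' - x) * 1 ≤ (bb u x' m' - bb u x m) * pp x :=
        mul_le_mul hB hpp (by norm_num) (by linarith)
      have s4 : 258 * (1 / 10 ^ 6 * (x' - x)) < 1 / 100 * (x' - x) * 1 := by linarith
      linarith
    have s5 : 0 ≤ bb u x' m' * pp x := by
      apply mul_nonneg _ (by linarith)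
      linarith
    calc aa u x m * bb u x m * pp x' = aa u x m * (bb u x m * pp x') := by ring
      _ < aa u x m * (bb u x' m' * pp x) := mul_lt_mul_of_pos_left s1 haa
      _ ≤ aa u x' m' * (bb u x' m' * pp x) := mul_le_mul_of_nonneg_right hA s5
      _ = _ := by ring
  have hxx10 : 0 < x ^ 10 * x' ^ 10 := by positivity
  calc x ^ 10 * (aa u x m * bb u x m) * (x' ^ 10 * pp x')
      = x ^ 10 * x' ^ 10 * (aa u x m * bb u x m * pp x') := by ring
    _ < x ^ 10 * x' ^ 10 * (aa u x' m' * bb u x' m' * pp x) := mul_lt_mul_of_pos_left key hxx10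
    _ = _ := by ring

end Pool.Agent.W154.STK
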