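import Pool.Agent.W154.STK.Ineq3

set_option autoImplicit false

namespace Pool.Agent.W154.STK

/-- the `T`-graph with `r = 0.22 x` beats the quasi-star for `0.0075 ≤ x ≤ 0.075` -/
theorem tbeats {x r z : ℝ} (hx : 3 / 400 ≤ x) (hx' : x ≤ 3 / 40) (hr : r = 22 / 100 * x)
    (hrz : r ≤ z) (hz1 : z ≤ 1) (h : be z r = 2 * x - x ^ 2) : Fp x x < Fp z r := by
  have hx0 : 0 < x := by linarith
  have hr0 : 0 < r := by rw [hr]; positivity
  have hz0 : 0 < z := hr0.trans_le hrz
  obtain ⟨-, hy⟩ := curve_facts (by linarith) hrz hz1 h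
  have hc : (4 / 100 + x) / (44 / 100) - 22 / 100 * x ≤ z - r := by
    apply le_of_sq' (by linarith)
    rw [hy, hr]
    have e : (x - 22 / 100 * x) * (2 - x - 22 / 100 * x) -
        ((4 / 100 + x) / (44 / 100) - 22 / 100 * x) ^ 2 =
        (78 / 100 * (122 / 100) + (1 / (44 / 100) - 22 / 100) ^ 2) *
          ((x - 3 / 400) * (3 / 40 - x)) +
        (78 / 100 * 2 - 2 * (1 / 11) * (1 / (44 / 100) - 22 / 100) -
          (78 / 100 * (122 / 100) + (1 / (44 / 100) - 22 / 100) ^ 2) * (3 / 400 + 3 / 40)) * x +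
        ((78 / 100 * (122 / 100) + (1 / (44 / 100) - 22 / 100) ^ 2) * (3 / 400 * (3 / 40)) -
          (1 / 11) ^ 2) := by ring
    have e2 : 0 ≤ (x - 3 / 400) * (3 / 40 - x) := mul_nonneg (by linarith) (by linarith)
    norm_num at e ⊢
    linarith
  have hz : (4 / 100 + x) / (44 / 100) ≤ z := by rw [hr] at hc; linarith
  have hz2 : 16 / 10 * x ≤ z ^ 2 := by
    have e1 : z ^ 2 = 156 / 100 * x - x ^ 2 + 44 / 100 * x * z := by
      unfold be at h; rw [hr] at h; linarith
    have e2 : 44 / 100 * x * ((4 / 100 + x) / (44 / 100)) ≤ 44 / 100 * x * z :=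
      mul_le_mul_of_nonneg_left hz (by positivity)
    rw [e1]
    have e3 : 44 / 100 * x * ((4 / 100 + x) / (44 / 100)) = x * (4 / 100) + x ^ 2 := by ring
    linarith
  have hz2' := zsq_le hr0.le hz1 h
  have h8 : z ^ 8 ≤ 1 / 1000 := by
    calc z ^ 8 = (z ^ 2) ^ 4 := by ring
      _ ≤ (2 * (3 / 40)) ^ 4 := pow_le_pow_left₀ (by positivity) (by linarith) 4
      _ ≤ _ := by norm_num
  have h16 : 4294 / 100 * x ^ 8 ≤ z ^ 16 := by
    calc 4294 / 100 * x ^ 8 ≤ (16 / 10) ^ 8 * x ^ 8 := by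
          apply mul_le_mul_of_nonneg_right _ (by positivity); norm_num
      _ = (16 / 10 * x) ^ 8 := by ring
      _ ≤ (z ^ 2) ^ 8 := pow_le_pow_left₀ (by positivity) hz2 8
      _ = z ^ 16 := by ring
  have hA : 483 / 10000 * x ^ 2 ≤ FA z r := by
    unfold FA
    have e1 : r ^ 2 * (999 / 1000) ≤ r ^ 2 * (1 - z ^ 8) :=
      mul_le_mul_of_nonneg_left (by linarith) (by positivity)
    have e2 : 0 ≤ r ^ 8 * (1 - z ^ 2) :=
      mul_nonneg (by positivity) (by linarith [pow_le_one₀ hz0.le hz1 (n := 2)])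
    have e3 : 0 ≤ z ^ 10 := by positivity
    have e4 : r ^ 2 = 484 / 10000 * x ^ 2 := by rw [hr]; ring
    rw [e4] at e1 ⊢
    have e5 : 0 ≤ x ^ 2 := by positivity
    linarith
  have hB : 4294 / 100 * x ^ 8 ≤ FB z r := by
    unfold FB
    have e2 : 0 ≤ 2 * r ^ 8 * (1 - z ^ 8) := mul_nonneg (by positivity) (by linarith)
    linarith
  have hl : 483 / 10000 * x ^ 2 * (4294 / 100 * x ^ 8) ≤ Fp z r :=
    mul_le_mul hA hB (by positivity) (FA_nonneg hr0.le hrz hz1)
  have hu : Fp x x ≤ 2001 / 1000 * x ^ 10 := by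
    rw [Fp_self]
    have q1 : pp x ≤ 2001 / 1000 := by
      unfold pp
      have e1 : x ^ 6 ≤ 1 / 10000 := by
        calc x ^ 6 ≤ (3 / 40) ^ 6 := pow_le_pow_left₀ hx0.le hx' 6
          _ ≤ _ := by norm_num
      have e2 : 0 ≤ x ^ 8 := by positivity
      have e3 : x ^ 8 ≤ 1 := pow_le_one₀ hx0.le (by linarith)
      calc (1 + x ^ 6 - x ^ 8) * (2 - x ^ 8) ≤ (1 + 1 / 10000) * 2 :=
            mul_le_mul (by linarith) (by linarith) (by linarith) (by norm_num)
        _ ≤ _ := by norm_num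
    calc x ^ 10 * pp x ≤ x ^ 10 * (2001 / 1000) := mul_le_mul_of_nonneg_left q1 (by positivity)
      _ = _ := by ring
  have hx10 : 0 < x ^ 10 := by positivity
  have : 2001 / 1000 * x ^ 10 < 483 / 10000 * x ^ 2 * (4294 / 100 * x ^ 8) := by
    have e : 483 / 10000 * x ^ 2 * (4294 / 100 * x ^ 8) = (483 / 10000 * (4294 / 100)) * x ^ 10 := by ring
    rw [e]
    apply mul_lt_mul_of_pos_right _ hx10
    norm_num
  linarith

/-- the quasi-clique beats the quasi-star for `0.075 ≤ x < 1` -/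
theorem kbeats {x : ℝ} (hx : 3 / 40 ≤ x) (hx1 : x < 1) : Fp x x < (2 * x - x ^ 2) ^ 13 := by
  have hx0 : 0 < x := by linarith
  by_cases h76 : x ≤ 76 / 100
  · have e : (2 * x - x ^ 2) ^ 13 = x ^ 10 * (x ^ 3 * (2 - x) ^ 13) := by ring
    rw [e, Fp_self]
    apply mul_lt_mul_of_pos_left _ (by positivity)
    have hderiv : ∀ y : ℝ, HasDerivAt (fun x : ℝ => x ^ 3 * (2 - x) ^ 13)
        (y ^ 2 * (2 - y) ^ 12 * (6 - 16 * y)) y := by
      intro y
      have h1 : HasDerivAt (fun x : ℝ => x ^ 3) (3 * y ^ 2) y := by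
        simpa using hasDerivAt_pow 3 y
      have h2 : HasDerivAt (fun x : ℝ => (2 - x) ^ 13) (-(13 * (2 - y) ^ 12)) y := by
        have := ((hasDerivAt_id y).const_sub 2).pow 13
        refine this.congr_deriv ?_
        simp
      refine (h1.mul h2).congr_deriv ?_
      ring
    by_cases h38 : x ≤ 3 / 8
    · have hmono : MonotoneOn (fun x : ℝ => x ^ 3 * (2 - x) ^ 13) (Set.Icc 0 (3 / 8)) := by
        apply monotoneOn_of_deriv_nonneg (convex_Icc _ _)
        · exact fun y _ => (hderiv y).continuousAt.continuousWithinAt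
        · exact fun y _ => (hderiv y).differentiableAt.differentiableWithinAt
        · intro y hy
          rw [interior_Icc] at hy
          rw [(hderiv y).deriv]
          have h1 : 0 ≤ 2 - y := by linarith [hy.2]
          have h2 : 0 ≤ 6 - 16 * y := by linarith [hy.2]
          positivity
      have h1 := hmono (⟨by norm_num, by norm_num⟩ : (3 / 40 : ℝ) ∈ Set.Icc (0:ℝ) (3 / 8))
        ⟨hx0.le, h38⟩ hx
      simp only at h1
      have h2 : (21 / 10 : ℝ) ≤ (3 / 40) ^ 3 * (2 - 3 / 40) ^ 13 := by norm_num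
      have h3 : pp x ≤ 2 * (1 + 1 / 100) := by
        unfold pp
        have e1 : x ^ 6 ≤ 1 / 100 := by
          calc x ^ 6 ≤ (3 / 8) ^ 6 := pow_le_pow_left₀ hx0.le h38 6
            _ ≤ _ := by norm_num
        have e2 : 0 ≤ x ^ 8 := by positivity
        have e3 : x ^ 8 ≤ 1 := pow_le_one₀ hx0.le hx1.le
        calc (1 + x ^ 6 - x ^ 8) * (2 - x ^ 8) ≤ (1 + 1 / 100) * 2 :=
              mul_le_mul (by linarith) (by linarith) (by linarith) (by norm_num)
          _ = _ := by ring
      linarith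
    · push Not at h38
      have hanti : AntitoneOn (fun x : ℝ => x ^ 3 * (2 - x) ^ 13) (Set.Icc (3 / 8) 1) := by
        apply antitoneOn_of_deriv_nonpos (convex_Icc _ _)
        · exact fun y _ => (hderiv y).continuousAt.continuousWithinAt
        · exact fun y _ => (hderiv y).differentiableAt.differentiableWithinAt
        · intro y hy
          rw [interior_Icc] at hy
          rw [(hderiv y).deriv]
          have h1 : 0 ≤ 2 - y := by linarith [hy.2]
          have h2 : 6 - 16 * y ≤ 0 := by linarith [hy.1]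
          exact mul_nonpos_of_nonneg_of_nonpos (by positivity) h2
      have h1 := hanti (⟨h38.le, hx1.le⟩ : x ∈ Set.Icc (3 / 8 : ℝ) 1)
        (⟨by norm_num, by norm_num⟩ : (76 / 100 : ℝ) ∈ Set.Icc (3 / 8 : ℝ) 1) h76
      simp only at h1
      have h2 : (5 : ℝ) ≤ (76 / 100) ^ 3 * (2 - 76 / 100) ^ 13 := by norm_num
      have h3 : pp x ≤ 4 := by
        unfold pp
        have e1 : x ^ 6 ≤ 1 := pow_le_one₀ hx0.le hx1.le
        have e2 : 0 ≤ x ^ 8 := by positivity
        have e3 : x ^ 8 ≤ 1 := pow_le_one₀ hx0.le hx1.le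
        have e4 : 0 ≤ x ^ 6 := by positivity
        calc (1 + x ^ 6 - x ^ 8) * (2 - x ^ 8) ≤ 2 * 2 :=
              mul_le_mul (by linarith) (by linarith) (by linarith) (by norm_num)
          _ = _ := by norm_num
      linarith
  · push Not at h76
    set t := 1 - x with ht
    have ht0 : 0 < t := by linarith
    have ht1 : t ≤ 24 / 100 := by linarith
    have hxt : x = 1 - t := by linarith
    have e0 : 2 * x - x ^ 2 = 1 - t ^ 2 := by rw [hxt]; ring
    rw [e0]
    have ht2 : t ^ 2 ≤ (24 / 100) ^ 2 := pow_le_pow_left₀ ht0.le ht1 2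
    have hb := one_add_mul_le_pow (a := -t ^ 2) (by norm_num at ht2; linarith) 13
    have hb' : 1 - 13 * t ^ 2 ≤ (1 - t ^ 2) ^ 13 := by
      have e : (1 + -t ^ 2) = 1 - t ^ 2 := by ring
      rw [e] at hb
      push_cast at hb
      linarith
    have hP : 361 / 100 * t ≤ 1 - x ^ 8 := by
      have e1 : 1 - x ^ 8 = t * ((1 + x) * ((1 + x ^ 2) * (1 + x ^ 4))) := by rw [ht]; ring
      have e2 : (76 / 100) ^ 2 ≤ x ^ 2 := pow_le_pow_left₀ (by norm_num) h76.le 2
      have e4 : (76 / 100) ^ 4 ≤ x ^ 4 := pow_le_pow_left₀ (by norm_num) h76.le 4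
      have e5 : (1 + 76 / 100) * ((1 + (76 / 100) ^ 2) * (1 + (76 / 100) ^ 4)) ≤
          (1 + x) * ((1 + x ^ 2) * (1 + x ^ 4)) := by
        apply mul_le_mul (by linarith) _ (by positivity) (by positivity)
        exact mul_le_mul (by linarith) (by linarith) (by positivity) (by positivity)
      rw [e1, mul_comm]
      apply mul_le_mul_of_nonneg_left _ ht0.le
      norm_num at e5 ⊢
      linarith
    have hP2 : 13 * t ^ 2 ≤ (1 - x ^ 8) ^ 2 := by
      have := pow_le_pow_left₀ (by positivity) hP 2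
      have e : 0 ≤ t ^ 2 := by positivity
      linarith
    have hFB : FB x x ≤ 1 - 13 * t ^ 2 := by
      have : FB x x = 1 - (1 - x ^ 8) ^ 2 := by unfold FB; ring
      rw [this]; linarith
    have h8 : x ^ 8 < 1 := pow_lt_one₀ hx0.le hx1 (by norm_num)
    have h22 : x ^ 2 < 1 := pow_lt_one₀ hx0.le hx1 (by norm_num)
    have hFA : FA x x < 1 := by
      have e : FA x x = 1 - (1 - x ^ 2) * (1 - x ^ 8) := by unfold FA; ring
      rw [e]
      have := mul_pos (sub_pos.2 h22) (sub_pos.2 h8)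
      linarith
    have hFB0 : 0 < FB x x := by
      have : FB x x = x ^ 8 * (2 - x ^ 8) := by unfold FB; ring
      rw [this]
      exact mul_pos (by positivity) (by linarith)
    unfold Fp
    calc FA x x * FB x x < 1 * FB x x := mul_lt_mul_of_pos_right hFA hFB0
      _ ≤ _ := by linarith

/-- an explicit point where the `T`-graph beats the quasi-clique -/
theorem tk : (be (29 / 100) (95 / 10000)) ^ 13 < Fp (29 / 100) (95 / 10000) := by
  unfold be Fp FA FB
  norm_num

theorem tk_be : be (29 / 100) (95 / 10000) = 9759 / 100000 := by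
  unfold be; norm_num

end Pool.Agent.W154.STK
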