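import Pool.Agent.W154.STK.Ineq4

set_option autoImplicit false

namespace Pool.Agent.W154.STK

open Set Filter Topology

/-- the point `(z, r)` describes a `T`-graph of density `β` -/
def On (β z r : ℝ) : Prop := 0 ≤ r ∧ r ≤ z ∧ z ≤ 1 ∧ be z r = β

noncomputable def Zc (x r : ℝ) : ℝ := r + Real.sqrt ((x - r) * (2 - x - r))

theorem Zc_on {x r : ℝ} (h0 : 0 ≤ r) (h1 : r ≤ x) (h2 : x ≤ 1) : On (2 * x - x ^ 2) (Zc x r) r := by
  have h3 : 0 ≤ (x - r) * (2 - x - r) := mul_nonneg (by linarith) (by linarith)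
  refine ⟨h0, ?_, ?_, ?_⟩
  · unfold Zc; linarith [Real.sqrt_nonneg ((x - r) * (2 - x - r))]
  · unfold Zc
    have : Real.sqrt ((x - r) * (2 - x - r)) ≤ 1 - r := by
      apply Real.sqrt_le_iff.2 ⟨by linarith, ?_⟩
      have : (1 - r) ^ 2 - (x - r) * (2 - x - r) = (1 - x) ^ 2 := by ring
      linarith [sq_nonneg (1 - x)]
    linarith
  · have h4 := be_sub (Zc x r) r x
    have h5 : (Zc x r - r) ^ 2 = (x - r) * (2 - x - r) := by
      unfold Zc
      rw [add_sub_cancel_left, Real.sq_sqrt h3]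
    rw [h5] at h4
    linarith

theorem on_eq_Zc {x r z : ℝ} (hx1 : x < 1) (h : On (2 * x - x ^ 2) z r) : r ≤ x ∧ z = Zc x r := by
  obtain ⟨h0, h1, h2, h3⟩ := h
  obtain ⟨h4, h5⟩ := curve_facts hx1 h1 h2 h3
  refine ⟨h4, ?_⟩
  unfold Zc
  rw [← h5, Real.sqrt_sq (by linarith)]
  ring

theorem on_self {x : ℝ} (h0 : 0 ≤ x) (h1 : x ≤ 1) : On (2 * x - x ^ 2) x x :=
  ⟨h0, le_rfl, h1, by unfold be; ring⟩

theorem on_diag {x z : ℝ} (hx1 : x < 1) (h : On (2 * x - x ^ 2) z z) : z = x := by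
  obtain ⟨h0, h1, h2, h3⟩ := h
  obtain ⟨h4, h5⟩ := curve_facts hx1 h1 h2 h3
  rw [sub_self, zero_pow (by norm_num)] at h5
  have : (x - z) = 0 := by
    rcases mul_eq_zero.1 h5.symm with h | h
    · exact h
    · linarith
  linarith

theorem on_zero {β : ℝ} (h0 : 0 ≤ β) (h1 : β ≤ 1) : On β (Real.sqrt β) 0 := by
  refine ⟨le_rfl, Real.sqrt_nonneg _, Real.sqrt_le_one.2 h1, ?_⟩
  unfold be
  rw [Real.sq_sqrt h0]; ring

theorem Fp_zero (z : ℝ) : Fp z 0 = (be z 0) ^ 13 := by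
  unfold Fp FA FB be; ring

theorem Fp_pos {x : ℝ} (h0 : 0 < x) (h1 : x ≤ 1) : 0 < Fp x x := by
  rw [Fp_self]
  have h8 : x ^ 8 ≤ 1 := pow_le_one₀ h0.le h1
  have h86 : x ^ 8 ≤ x ^ 6 := pow_le_pow_of_le_one h0.le h1 (by norm_num)
  unfold pp
  have : 0 < (1 + x ^ 6 - x ^ 8) * (2 - x ^ 8) := mul_pos (by linarith) (by linarith)
  positivity

theorem Fp_cont : Continuous (fun p : ℝ × ℝ => Fp p.1 p.2) := by
  unfold Fp FA FB; fun_prop

theorem be_cont : Continuous (fun p : ℝ × ℝ => be p.1 p.2) := by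
  unfold be; fun_prop

/-- a maximiser exists -/
theorem exists_max {β : ℝ} (h0 : 0 ≤ β) (h1 : β ≤ 1) :
    ∃ z r, On β z r ∧ ∀ z' r', On β z' r' → Fp z' r' ≤ Fp z r := by
  have hc : IsCompact {p : ℝ × ℝ | On β p.1 p.2} := by
    have hb : IsCompact (Icc (0:ℝ) 1 ×ˢ Icc (0:ℝ) 1) := isCompact_Icc.prod isCompact_Icc
    apply hb.of_isClosed_subset
    · unfold On
      apply IsClosed.inter (isClosed_le continuous_const continuous_snd)
      apply IsClosed.inter (isClosed_le continuous_snd continuous_fst)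
      apply IsClosed.inter (isClosed_le continuous_fst continuous_const)
      exact isClosed_eq be_cont continuous_const
    · rintro ⟨z, r⟩ ⟨a, b, c, -⟩
      simp only at a b c
      exact ⟨⟨by simp only; linarith, c⟩, ⟨a, by simp only; linarith⟩⟩
  obtain ⟨⟨z, r⟩, hm, hmax⟩ := hc.exists_isMaxOn ⟨(Real.sqrt β, 0), on_zero h0 h1⟩ Fp_cont.continuousOn
  exact ⟨z, r, hm, fun z' r' h => hmax (a := (z', r')) h⟩

theorem ratio_mono' {u x x' : ℝ} (hu0 : 2 / 25 ≤ u) (hu : u ≤ 7 / 10) (hx0 : 0 < x)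
    (hxx : x < x') (hx' : x' ≤ 3 / 400) :
    Fp (Zc x (u * x)) (u * x) * Fp x' x' < Fp (Zc x' (u * x')) (u * x') * Fp x x := by
  have h1 : u * x ≤ x := by nlinarith
  have h2 : u * x' ≤ x' := by nlinarith
  obtain ⟨a1, a2, a3, a4⟩ := Zc_on (by positivity : 0 ≤ u * x) h1 (by linarith)
  obtain ⟨b1, b2, b3, b4⟩ := Zc_on (mul_nonneg (by linarith) (by linarith) : 0 ≤ u * x') h2
    (by linarith)
  exact ratio_mono hu0 hu hx0 hxx hx' a2 b2 a3 b3 a4 b4

/-- the first transition -/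
theorem phaseS : ∃ xg ug : ℝ, 0 < xg ∧ xg ≤ 3 / 400 ∧ 2 / 25 ≤ ug ∧ ug ≤ 7 / 10 ∧
    Fp xg xg ≤ Fp (Zc xg (ug * xg)) (ug * xg) ∧
    (∀ x z r, 0 < x → x ≤ xg → On (2 * x - x ^ 2) z r → Fp z r ≤ Fp x x) ∧
    (∀ x, xg < x → x < 1 → ∃ z r, On (2 * x - x ^ 2) z r ∧ Fp x x < Fp z r) := by
  set g : ℝ × ℝ → ℝ := fun p => Fp (Zc p.1 (p.2 * p.1)) (p.2 * p.1) - Fp p.1 p.1 with hg
  have hgc : Continuous g := by
    rw [hg]
    unfold Zc Fp FA FB
    fun_prop
  set A : Set (ℝ × ℝ) := {p | p ∈ Icc (1 / 1000 : ℝ) (3 / 400) ×ˢ Icc (2 / 25 : ℝ) (7 / 10) ∧ 0 ≤ g p} with hA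
  have hAc : IsCompact A := by
    have hb : IsCompact (Icc (1 / 1000 : ℝ) (3 / 400) ×ˢ Icc (2 / 25 : ℝ) (7 / 10)) :=
      isCompact_Icc.prod isCompact_Icc
    exact hb.inter_right (isClosed_le continuous_const hgc)
  have hAn : A.Nonempty := by
    refine ⟨(3 / 400, 22 / 100), ⟨⟨by norm_num, by norm_num⟩, ⟨by norm_num, by norm_num⟩⟩, ?_⟩
    obtain ⟨b1, b2, b3, b4⟩ := Zc_on (x := 3 / 400) (r := 22 / 100 * (3 / 400)) (by norm_num)
      (by norm_num) (by norm_num)
    have := tbeats (x := 3 / 400) (r := 22 / 100 * (3 / 400)) le_rfl (by norm_num) rfl b2 b3 b4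
    rw [hg]
    simp only
    linarith
  obtain ⟨xg, hxg⟩ := (hAc.image continuous_fst).exists_isLeast (hAn.image _)
  obtain ⟨⟨⟨xg', ug⟩, ⟨⟨hx1, hu1⟩, hgp⟩, hfst⟩, hleast⟩ := hxg
  simp only at hfst hx1 hu1
  subst hfst
  have hleast' : ∀ x u, (x, u) ∈ A → xg' ≤ x := fun x u h => hleast ⟨(x, u), h, rfl⟩
  have hu0 := hu1.1
  have hu7 := hu1.2
  have hxpos : 0 < xg' := by have := hx1.1; linarith
  have hgp' : Fp xg' xg' ≤ Fp (Zc xg' (ug * xg')) (ug * xg') := by
    have : 0 ≤ g (xg', ug) := hgp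
    rw [hg] at this
    simp only at this
    linarith
  -- general small facts
  have hsmall : ∀ x u, 0 < x → x ≤ 1 / 1000 → 2 / 25 ≤ u → u ≤ 7 / 10 → g (x, u) < 0 := by
    intro x u h0 h1 h2 h3
    have h4 : u * x ≤ 7 / 10 * x := mul_le_mul_of_nonneg_right h3 h0.le
    obtain ⟨b1, b2, b3, b4⟩ := Zc_on (x := x) (r := u * x) (by positivity)
      (by linarith) (by linarith)
    have := small h0 h1 b1 h4 b2 b4 b3
    rw [hg]
    simp only
    linarith
  have hx1000 : 1 / 1000 < xg' := by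
    rcases hx1.1.lt_or_eq with h | h
    · exact h
    · exfalso
      have := hsmall xg' ug hxpos h.symm.le hu0 hu7
      have h2 : 0 ≤ g (xg', ug) := hgp
      linarith
  have hx400 : xg' ≤ 3 / 400 := hx1.2
  refine ⟨xg', ug, hxpos, hx400, hu0, hu7, hgp', ?_, ?_⟩
  · intro x z r hx0 hxx hon
    obtain ⟨hrx, hz⟩ := on_eq_Zc (by linarith) hon
    obtain ⟨h0, h1, h2, h3⟩ := hon
    rcases hrx.eq_or_lt with h | h
    · subst h
      have : z = r := on_diag' h1 h2 h3 (by linarith)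
      rw [this]
    · by_cases hup : 7 / 10 * x ≤ r
      · exact (up hx0 (by linarith) hup h h1 h3 h2).le
      · by_cases hlow : r ≤ 2 / 25 * x
        · exact (low hx0 (by linarith) h0 hlow h1 h3 h2).le
        · push Not at hup hlow
          set u := r / x with hu
          have hru : r = u * x := by rw [hu]; field_simp
          have hu2 : 2 / 25 ≤ u := by rw [hu, le_div_iff₀ hx0]; exact hlow.le
          have hu3 : u ≤ 7 / 10 := by rw [hu, div_le_iff₀ hx0]; exact hup.le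
          by_contra hcon
          push Not at hcon
          have hgx : 0 < g (x, u) := by
            rw [hg]; simp only
            rw [← hru, ← hz]
            linarith
          by_cases hx3 : x ≤ 1 / 1000
          · linarith [hsmall x u hx0 hx3 hu2 hu3]
          · push Not at hx3
            -- find smaller point
            have hev : ∀ᶠ y in 𝓝 x, 0 < g (y, u) := by
              have hc : Continuous (fun y : ℝ => g (y, u)) := hgc.comp (by fun_prop)
              exact hc.continuousAt.eventually (lt_mem_nhds hgx)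
            have hev2 : ∀ᶠ y in 𝓝 x, 1 / 1000 < y := lt_mem_nhds hx3
            have hev3 := (hev.and hev2).filter_mono (nhdsWithin_le_nhds (s := Iio x))
            have hne : (𝓝[<] x).NeBot := inferInstance
            obtain ⟨y, ⟨hy1, hy2⟩, hy3⟩ := (hev3.and self_mem_nhdsWithin).exists
            have hy3' : y < x := hy3
            have : xg' ≤ y := hleast' y u ⟨⟨⟨hy2.le, by simp only; linarith⟩, ⟨hu2, hu3⟩⟩, hy1.le⟩
            linarith
  · intro x hx hx1'
    by_cases h1 : x ≤ 3 / 400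
    · have hm := ratio_mono' hu0 hu7 hxpos hx h1
      have hFx : 0 < Fp x x := Fp_pos (by linarith) hx1'.le
      have hFg : 0 < Fp xg' xg' := Fp_pos hxpos (by linarith)
      have hux : ug * x ≤ x := by nlinarith
      refine ⟨_, _, Zc_on (mul_nonneg (by linarith) (by linarith)) hux hx1'.le, ?_⟩
      have h2 : Fp xg' xg' * Fp x x < Fp xg' xg' * Fp (Zc x (ug * x)) (ug * x) := by
        calc Fp xg' xg' * Fp x x ≤ Fp (Zc xg' (ug * xg')) (ug * xg') * Fp x x :=
              mul_le_mul_of_nonneg_right hgp' hFx.le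
          _ < _ := hm
          _ = _ := mul_comm _ _
      exact lt_of_mul_lt_mul_left h2 hFg.le
    · push Not at h1
      by_cases h2 : x ≤ 3 / 40
      · obtain ⟨b1, b2, b3, b4⟩ := Zc_on (x := x) (r := 22 / 100 * x) (by linarith)
          (by linarith) (by linarith)
        exact ⟨_, _, ⟨b1, b2, b3, b4⟩, tbeats h1.le h2 rfl b2 b3 b4⟩
      · push Not at h2
        have hb0 : 0 ≤ 2 * x - x ^ 2 := by nlinarith
        have hb1 : 2 * x - x ^ 2 ≤ 1 := by nlinarith [sq_nonneg (1 - x)]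
        refine ⟨_, _, on_zero hb0 hb1, ?_⟩
        rw [Fp_zero, (on_zero hb0 hb1).2.2.2]
        exact kbeats h2.le hx1'
where
  on_diag' {z r : ℝ} (h1 : r ≤ z) (h2 : z ≤ 1) (h3 : be z r = 2 * r - r ^ 2) (h4 : r < 1) :
      z = r := by
    obtain ⟨-, h5⟩ := curve_facts h4 h1 h2 h3
    rw [sub_self, zero_mul] at h5
    have := pow_eq_zero_iff (two_ne_zero) |>.1 h5
    linarith

end Pool.Agent.W154.STK
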