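import Pool.Agent.W154.STK.Phase

set_option autoImplicit false

namespace Pool.Agent.W154.STK

open Set Filter Topology

/-- if the quasi-clique is beaten at `β`, then also at all smaller densities -/
def Padding : Prop := ∀ β β' : ℝ, 0 < β' → β' < β → β ≤ 1 →
  (∃ z r, On β z r ∧ β ^ 13 < Fp z r) → ∃ z r, On β' z r ∧ β' ^ 13 < Fp z r

theorem on_one {z r : ℝ} (h : On 1 z r) : z = 1 := by
  obtain ⟨h0, h1, h2, h3⟩ := h
  rw [be_eq] at h3
  have : (1 - z) * ((1 - z) - 2 * (1 - r)) = 0 := by linarith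
  rcases mul_eq_zero.1 this with h | h
  · linarith
  · linarith

theorem on_lt_one {β z r : ℝ} (hβ : β < 1) (h : On β z r) : z < 1 := by
  obtain ⟨h0, h1, h2, h3⟩ := h
  rcases h2.lt_or_eq with h | h
  · exact h
  · exfalso
    rw [h] at h3
    unfold be at h3
    linarith

/-- near the quasi-clique nothing beats it -/
theorem beat_r {β z r : ℝ} (hβ : 9 / 100 ≤ β) (hβ1 : β < 1) (h : On β z r) (hb : β ^ 13 < Fp z r) :
    (1 / 5 : ℝ) ^ 24 / 2 ≤ r := by
  have hz1 := on_lt_one hβ1 h
  obtain ⟨h0, h1, h2, h3⟩ := h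
  by_contra hc
  push Not at hc
  rcases h0.eq_or_lt with h | h
  · rw [← h, Fp_zero] at hb
    rw [← h] at h3
    rw [h3] at hb
    exact lt_irrefl _ hb
  · have hsm : (1 / 5 : ℝ) ^ 24 / 2 ≤ 1 / 100 := by norm_num
    have hz : 1 / 5 ≤ z := by
      apply le_of_sq' (h0.trans h1)
      unfold be at h3
      have : r * (1 - z) ≤ 1 / 100 * 1 := mul_le_mul (by linarith) (by linarith) (by linarith) (by norm_num)
      norm_num
      linarith
    have h24 : (1 / 5 : ℝ) ^ 24 ≤ z ^ 24 := pow_le_pow_left₀ (by norm_num) hz 24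
    have hp : (0:ℝ) < (1 / 5 : ℝ) ^ 24 := by positivity
    have := klocal h (by linarith) h1 hz1
    rw [h3] at this
    linarith

/-- the phase diagram of `K_{2,8} ∪ K_{8,8}` -/
theorem phases (pad : Padding) : ∃ γ δ : ℝ, 0 < γ ∧ γ < δ ∧ δ < 1 ∧
    (∀ x z r, 0 ≤ x → x ≤ 1 → 2 * x - x ^ 2 ≤ γ → On (2 * x - x ^ 2) z r → Fp z r ≤ Fp x x) ∧
    (∀ β, γ ≤ β → β ≤ δ → ∃ z r, On β z r ∧ 0 < r ∧ r < z ∧
      ∀ z' r', On β z' r' → Fp z' r' ≤ Fp z r) ∧
    (∀ β z r, δ ≤ β → β ≤ 1 → On β z r → Fp z r ≤ β ^ 13) ∧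
    (∀ x, 0 ≤ x → x ≤ 1 → γ < 2 * x - x ^ 2 → 2 * x - x ^ 2 < δ →
      ∃ z r, On (2 * x - x ^ 2) z r ∧ Fp x x < Fp z r) ∧
    (∀ β, γ < β → β < δ → ∃ z r, On β z r ∧ β ^ 13 < Fp z r) := by
  obtain ⟨xg, ug, hx0, hx1, hu0, hu1, hg, hS, hT⟩ := phaseS
  set γ := 2 * xg - xg ^ 2 with hγ
  have hγ0 : 0 < γ := by
    have : γ = xg * (2 - xg) := by rw [hγ]; ring
    rw [this]; exact mul_pos hx0 (by linarith)
  have hγ1 : γ ≤ 15 / 1000 := by
    have := sq_nonneg xg
    linarith
  set B : Set ℝ := {β | 0 < β ∧ β < 1 ∧ ∃ z r, On β z r ∧ β ^ 13 < Fp z r} with hB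
  have hB1 : (9759 / 100000 : ℝ) ∈ B := by
    refine ⟨by norm_num, by norm_num, 29 / 100, 95 / 10000, ⟨by norm_num, by norm_num, by norm_num,
      tk_be⟩, ?_⟩
    have := tk
    rw [tk_be] at this
    exact this
  have hBb : ∀ β ∈ B, β ≤ 1 - 1 / 10 ^ 6 := by
    rintro β ⟨hβ0, hβ1, z, r, hon, hlt⟩
    by_contra hc
    push Not at hc
    have hz1 := on_lt_one hβ1 hon
    obtain ⟨h0, h1, h2, h3⟩ := hon
    rcases h0.eq_or_lt with h | h
    · rw [← h, Fp_zero] at hlt
      rw [← h] at h3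
      rw [h3] at hlt
      exact lt_irrefl _ hlt
    · have := knear h h1 hz1 (by rw [h3]; exact hc.le)
      rw [h3] at this
      linarith
  have hBdd : BddAbove B := ⟨1 - 1 / 10 ^ 6, hBb⟩
  set δ := sSup B with hδ
  have hδ1 : δ ≤ 1 - 1 / 10 ^ 6 := csSup_le ⟨_, hB1⟩ hBb
  have hδ1' : δ < 1 := by
    have : (0:ℝ) < 1 / 10 ^ 6 := by norm_num
    linarith
  have hδ0 : 9759 / 100000 ≤ δ := le_csSup hBdd hB1
  have hγδ : γ < δ := by linarith
  -- solving for x
  have hx_of : ∀ β : ℝ, γ < β → β < 1 → ∃ x, xg < x ∧ x < 1 ∧ 2 * x - x ^ 2 = β := by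
    intro β h1 h2
    refine ⟨1 - Real.sqrt (1 - β), ?_, ?_, ?_⟩
    · have : Real.sqrt (1 - β) < 1 - xg := by
        rw [Real.sqrt_lt' (by linarith)]
        have : (1 - xg) ^ 2 = 1 - γ := by rw [hγ]; ring
        linarith
      linarith
    · have : 0 < Real.sqrt (1 - β) := Real.sqrt_pos.2 (by linarith)
      linarith
    · have : Real.sqrt (1 - β) ^ 2 = 1 - β := Real.sq_sqrt (by linarith)
      linear_combination -this
  -- S is beaten for β in (γ, 1)
  have hSb : ∀ β : ℝ, γ < β → β < 1 → ∃ x, x < 1 ∧ 2 * x - x ^ 2 = β ∧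
      ∃ z r, On β z r ∧ Fp x x < Fp z r := by
    intro β h1 h2
    obtain ⟨x, h3, h4, h5⟩ := hx_of β h1 h2
    obtain ⟨z, r, h6, h7⟩ := hT x h3 h4
    exact ⟨x, h4, h5, z, r, h5 ▸ h6, h7⟩
  -- K beaten below δ
  have hK : ∀ β, 0 < β → β < δ → ∃ z r, On β z r ∧ β ^ 13 < Fp z r := by
    intro β h0 h1
    obtain ⟨β', hβ', hlt⟩ := exists_lt_of_lt_csSup ⟨_, hB1⟩ h1
    exact pad β' β h0 hlt hβ'.2.1.le hβ'.2.2
  -- maximisers for β in (γ,1) are not the quasi-star
  have hnotS : ∀ β z r, γ < β → β < 1 → On β z r → (∀ z' r', On β z' r' → Fp z' r' ≤ Fp z r) →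
      r < z := by
    intro β z r h1 h2 hon hmax
    rcases hon.2.1.lt_or_eq with h | h
    · exact h
    · exfalso
      obtain ⟨x, hx, hxβ, z', r', hon', hlt⟩ := hSb β h1 h2
      subst h
      rw [← hxβ] at hon
      have := on_diag hx hon
      rw [this] at hmax
      linarith [hmax z' r' hon']
  -- above δ
  have hδmax : ∀ z r, On δ z r → Fp z r ≤ δ ^ 13 := by
    intro z r hon
    by_contra hc
    push Not at hc
    obtain ⟨z1, r1, hon1, hmax1⟩ := exists_max (β := δ) (by linarith) hδ1'.le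
    have hlt1 : δ ^ 13 < Fp z1 r1 := hc.trans_le (hmax1 z r hon)
    have hr1 := hnotS δ z1 r1 hγδ hδ1' hon1 hmax1
    have hz1 := on_lt_one hδ1' hon1
    obtain ⟨a0, a1, a2, a3⟩ := hon1
    -- increase r
    have hc1 : Continuous (fun e : ℝ => Fp z1 (r1 + e) - (be z1 (r1 + e)) ^ 13) := by
      unfold Fp FA FB be; fun_prop
    have hev : ∀ᶠ e in 𝓝 (0:ℝ), 0 < Fp z1 (r1 + e) - (be z1 (r1 + e)) ^ 13 := by
      apply hc1.continuousAt.eventually
      apply lt_mem_nhds
      show 0 < Fp z1 (r1 + 0) - (be z1 (r1 + 0)) ^ 13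
      rw [add_zero, a3]
      linarith
    have hc2 : Continuous (fun e : ℝ => be z1 (r1 + e)) := by unfold be; fun_prop
    have hev2 : ∀ᶠ e in 𝓝 (0:ℝ), be z1 (r1 + e) < 1 := by
      refine (hc2.tendsto 0).eventually (gt_mem_nhds ?_)
      show be z1 (r1 + 0) < 1
      rw [add_zero, a3]
      exact hδ1'
    have hev3 : ∀ᶠ e in 𝓝 (0:ℝ), e < z1 - r1 := gt_mem_nhds (by linarith)
    have hev4 := ((hev.and hev2).and hev3).filter_mono (nhdsWithin_le_nhds (s := Ioi (0:ℝ)))
    obtain ⟨e, ⟨⟨he1, he2⟩, he3⟩, he4⟩ := (hev4.and self_mem_nhdsWithin).exists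
    have he4' : 0 < e := he4
    have hbe : δ < be z1 (r1 + e) := by
      have : be z1 (r1 + e) = be z1 r1 + 2 * e * (1 - z1) := by unfold be; ring
      rw [this, a3]
      have : 0 < 2 * e * (1 - z1) := mul_pos (by linarith) (by linarith)
      linarith
    have hmem : be z1 (r1 + e) ∈ B :=
      ⟨by linarith, he2, z1, r1 + e, ⟨by linarith, by linarith, a2, rfl⟩, by linarith⟩
    linarith [le_csSup hBdd hmem]
  refine ⟨γ, δ, hγ0, hγδ, hδ1', ?_, ?_, ?_, ?_, fun β h1 h2 => hK β (by linarith) h2⟩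
  · intro x z r h0 h1 hx hon
    rcases h0.eq_or_lt with h | h
    · subst h
      have h2 : On (2 * 0 - 0 ^ 2) z r := hon
      obtain ⟨hr0, hz⟩ := on_eq_Zc (by norm_num) h2
      obtain ⟨a0, a1, a2, a3⟩ := hon
      have hr : r = 0 := le_antisymm hr0 a0
      subst hr
      have hz0 : z = 0 := by
        unfold be at a3
        have : z ^ 2 = 0 := by linarith
        exact pow_eq_zero_iff (two_ne_zero) |>.1 this
      rw [hz0]
    · apply hS x z r h _ hon
      by_contra hc
      push Not at hc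
      rw [hγ] at hx
      have : 0 < (x - xg) * (2 - x - xg) := mul_pos (by linarith) (by linarith)
      have e : (2 * x - x ^ 2) - (2 * xg - xg ^ 2) = (x - xg) * (2 - x - xg) := by ring
      linarith
  · intro β h1 h2
    rcases h1.eq_or_lt with h | h
    · -- β = γ
      have hux : ug * xg ≤ xg := by nlinarith
      have hon := Zc_on (mul_nonneg (by linarith) hx0.le : 0 ≤ ug * xg) hux (by linarith)
      have hr0 : 0 < ug * xg := mul_pos (by linarith) hx0
      have hon2 : On β (Zc xg (ug * xg)) (ug * xg) := by rw [← h, hγ]; exact hon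
      refine ⟨_, _, hon2, hr0, ?_, ?_⟩
      · unfold Zc
        have : 0 < Real.sqrt ((xg - ug * xg) * (2 - xg - ug * xg)) := by
          apply Real.sqrt_pos.2
          have e1 : ug * xg ≤ 7 / 10 * xg := mul_le_mul_of_nonneg_right hu1 hx0.le
          exact mul_pos (by linarith) (by linarith)
        linarith
      · intro z' r' hon'
        rw [← h] at hon'
        exact (hS xg z' r' hx0 le_rfl hon').trans hg
    · rcases h2.lt_or_eq with h' | h'
      · obtain ⟨z, r, hon, hmax⟩ := exists_max (β := β) (by linarith) (by linarith)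
        refine ⟨z, r, hon, ?_, hnotS β z r h (by linarith) hon hmax, hmax⟩
        rcases hon.1.lt_or_eq with h3 | h3
        · exact h3
        · exfalso
          obtain ⟨z', r', hon', hlt'⟩ := hK β (by linarith) h'
          have h4 := hmax z' r' hon'
          subst h3
          rw [Fp_zero, hon.2.2.2] at h4
          linarith
      · -- the second transition
        rw [h'] at h ⊢
        set D : Set (ℝ × ℝ) := {p | (1 / 5 : ℝ) ^ 24 / 2 ≤ p.2 ∧ p.2 ≤ p.1 ∧ p.1 ≤ 1 ∧
          (be p.1 p.2) ^ 13 ≤ Fp p.1 p.2} with hD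
        have hDc : IsCompact D := by
          have hb : IsCompact (Icc (0:ℝ) 1 ×ˢ Icc (0:ℝ) 1) := isCompact_Icc.prod isCompact_Icc
          apply hb.of_isClosed_subset
          · apply IsClosed.inter (isClosed_le continuous_const continuous_snd)
            apply IsClosed.inter (isClosed_le continuous_snd continuous_fst)
            apply IsClosed.inter (isClosed_le continuous_fst continuous_const)
            exact isClosed_le (be_cont.pow 13) Fp_cont
          · rintro ⟨z, r⟩ ⟨a, b, c, -⟩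
            simp only at a b c
            have hp : (0:ℝ) < (1 / 5 : ℝ) ^ 24 / 2 := by positivity
            exact ⟨⟨by simp only; linarith, c⟩, ⟨by simp only; linarith, by simp only; linarith⟩⟩
        have hcl : IsClosed ((fun p : ℝ × ℝ => be p.1 p.2) '' D) :=
          (hDc.image be_cont).isClosed
        have hsub : Ioo (9 / 100 : ℝ) δ ⊆ (fun p : ℝ × ℝ => be p.1 p.2) '' D := by
          intro b hb
          obtain ⟨z, r, hon, hlt⟩ := hK b (by linarith [hb.1]) hb.2
          refine ⟨(z, r), ⟨beat_r hb.1.le (by linarith [hb.2]) hon hlt, hon.2.1, hon.2.2.1, ?_⟩, hon.2.2.2⟩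
          simp only
          rw [hon.2.2.2]
          exact hlt.le
        have hmem : δ ∈ closure (Ioo (9 / 100 : ℝ) δ) := by
          rw [closure_Ioo (by linarith)]
          exact ⟨by linarith, le_rfl⟩
        obtain ⟨⟨z, r⟩, ⟨a1, a2, a3, a4⟩, a5⟩ := (closure_minimal hsub hcl) hmem
        simp only at a1 a2 a3 a4 a5
        have hp : (0:ℝ) < (1 / 5 : ℝ) ^ 24 / 2 := by positivity
        have hon : On δ z r := ⟨by linarith, a2, a3, a5⟩
        have hmax : ∀ z' r', On δ z' r' → Fp z' r' ≤ Fp z r := by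
          intro z' r' hon'
          rw [a5] at a4
          exact (hδmax z' r' hon').trans a4
        exact ⟨z, r, hon, by linarith, hnotS δ z r h hδ1' hon hmax, hmax⟩
  · intro β z r h1 h2 hon
    rcases h1.eq_or_lt with h | h
    · rw [← h] at hon ⊢
      exact hδmax z r hon
    · rcases h2.lt_or_eq with h3 | h3
      · by_contra hc
        push Not at hc
        have : β ∈ B := ⟨by linarith, h3, z, r, hon, hc⟩
        linarith [le_csSup hBdd this]
      · subst h3
        have hz := on_one hon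
        subst hz
        unfold Fp FA FB
        norm_num
  · intro x h0 h1 h2 h3
    have hx1' : x < 1 := by
      rcases h1.lt_or_eq with h | h
      · exact h
      · subst h; norm_num at h3; linarith
    apply hT x _ hx1'
    by_contra hc
    push Not at hc
    rw [hγ] at h2
    have : 0 ≤ (xg - x) * (2 - x - xg) := mul_nonneg (by linarith) (by linarith)
    have e : (2 * xg - xg ^ 2) - (2 * x - x ^ 2) = (xg - x) * (2 - x - xg) := by ring
    linarith

end Pool.Agent.W154.STK
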