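import Pool.Agent.W154.STK.Count

set_option autoImplicit false

namespace Pool.Agent.W154.STK

open Finset Filter Topology Asymptotics
open scoped Classical
open Pool.Agent.H488R3

variable {V : Type} [Fintype V]

/-- normalised number of homomorphisms -/
noncomputable def hd (G : SimpleGraph V) (n : ℕ) (H : SimpleGraph (Fin n)) : ℝ :=
  ((HM G H).card : ℝ) / (n : ℝ) ^ Fintype.card V

/-- normalised number of unlabelled copies -/
noncomputable def cd (G : SimpleGraph V) (n : ℕ) (H : SimpleGraph (Fin n)) : ℝ :=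
  ((H.copyCount G : ℕ) : ℝ) * (Nat.card (G ≃g G) : ℝ) / (n : ℝ) ^ Fintype.card V

lemma cd_le_hd (G : SimpleGraph V) (n : ℕ) (H : SimpleGraph (Fin n)) : cd G n H ≤ hd G n H := by
  unfold cd hd
  apply div_le_div_of_nonneg_right _ (by positivity)
  have h := lab_le G H
  rw [copyCount_mul] at h
  exact_mod_cast h

lemma hd_le_cd (G : SimpleGraph V) {n : ℕ} (hn : 0 < n) (H : SimpleGraph (Fin n)) :
    hd G n H - (Fintype.card V : ℝ) ^ 2 / n ≤ cd G n H := by
  unfold cd hd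
  have h := le_lab G H
  rw [copyCount_mul, Fintype.card_fin] at h
  have hN' : (0:ℝ) < n := by exact_mod_cast hn
  have h5 : (n:ℝ) * (HM G H).card ≤ n * (((H.copyCount G : ℕ) : ℝ) * (Nat.card (G ≃g G) : ℝ)) +
      (Fintype.card V : ℝ) ^ 2 * (n:ℝ) ^ Fintype.card V := by
    exact_mod_cast h
  rw [sub_le_iff_le_add, div_le_iff₀ (by positivity)]
  have h6 : (n:ℝ) * ((((H.copyCount G : ℕ) : ℝ) * (Nat.card (G ≃g G) : ℝ) / (n:ℝ) ^ Fintype.card V +
      (Fintype.card V : ℝ) ^ 2 / n) * (n:ℝ) ^ Fintype.card V)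
        = n * (((H.copyCount G : ℕ) : ℝ) * (Nat.card (G ≃g G) : ℝ)) +
          (Fintype.card V : ℝ) ^ 2 * (n:ℝ) ^ Fintype.card V := by
    field_simp
  rw [← h6] at h5
  exact le_of_mul_le_mul_left h5 hN'

lemma inv_tendsto (c : ℝ) : Tendsto (fun n : ℕ => c / (n : ℝ)) atTop (𝓝 0) :=
  tendsto_natCast_atTop_atTop.const_div_atTop _

lemma cd_tendsto (G : SimpleGraph V) {H : ∀ n : ℕ, SimpleGraph (Fin n)} {t : ℝ}
    (h : Tendsto (fun n => hd G n (H n)) atTop (𝓝 t)) :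
    Tendsto (fun n => cd G n (H n)) atTop (𝓝 t) := by
  have h3 : Tendsto (fun n : ℕ => hd G n (H n) - (Fintype.card V : ℝ) ^ 2 / n) atTop (𝓝 t) := by
    simpa using h.sub (inv_tendsto ((Fintype.card V : ℝ) ^ 2))
  refine tendsto_of_tendsto_of_tendsto_of_le_of_le' h3 h ?_ ?_
  · filter_upwards [eventually_gt_atTop 0] with n hn
    exact hd_le_cd G hn (H n)
  · exact Eventually.of_forall fun n => cd_le_hd G n (H n)

lemma hd_mono (G : SimpleGraph V) {n : ℕ} {H H' : SimpleGraph (Fin n)} (h : H ≤ H') :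
    hd G n H ≤ hd G n H' := by
  unfold hd
  apply div_le_div_of_nonneg_right _ (by positivity)
  exact_mod_cast card_le_card (HM_mono G h)

/-- homomorphism densities of class graphs converge -/
theorem hd_class (G : SimpleGraph V) {cl : ∀ n : ℕ, Fin n → Cls} {w : Cls → ℝ}
    (h : ∀ c, Tendsto (fun n : ℕ => cnt (cl n) c / (n : ℝ)) atTop (𝓝 (w c))) :
    Tendsto (fun n : ℕ => hd G n (HG (cl n))) atTop (𝓝 (tval G w)) := by
  unfold hd
  have hcl : Tendsto (fun n : ℕ => (fun c => cnt (cl n) c / (n : ℝ))) atTop (𝓝 w) :=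
    tendsto_pi_nhds.2 h
  have h1 : Tendsto (fun N : ℕ => ((LH G (cl N)).card : ℝ) / (N : ℝ) ^ Fintype.card V) atTop (𝓝 (tval G w)) := by
    have h2 := ((tval_continuous G).tendsto w).comp hcl
    refine h2.congr' ?_
    filter_upwards [eventually_gt_atTop 0] with N hN
    have hN' : (N:ℝ) ≠ 0 := by positivity
    rw [LH_card]
    have : cnt (cl N) = fun c => (N:ℝ) * (cnt (cl N) c / N) := by
      funext c; field_simp
    rw [Function.comp_apply]
    conv_rhs => rw [this]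
    rw [tval_smul]
    field_simp
  have h3 : Tendsto (fun N : ℕ => ((LH G (cl N)).card : ℝ) / (N : ℝ) ^ Fintype.card V - (Fintype.card V : ℝ) ^ 2 / N) atTop (𝓝 (tval G w)) := by
    simpa using h1.sub (inv_tendsto ((Fintype.card V : ℝ) ^ 2))
  refine tendsto_of_tendsto_of_tendsto_of_le_of_le' h3 h1 ?_ ?_
  · filter_upwards [eventually_gt_atTop 0] with N hN
    have hN' : (0:ℝ) < N := by exact_mod_cast hN
    have h4 := LH_bound G (cl N)
    rw [Fintype.card_fin] at h4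
    have h5 : (N:ℝ) * (LH G (cl N)).card ≤ N * (HM G (HG (cl N))).card + (Fintype.card V : ℝ) ^ 2 * (N:ℝ) ^ Fintype.card V := by
      exact_mod_cast h4
    rw [sub_le_iff_le_add, div_le_iff₀ (by positivity)]
    have h6 : (N:ℝ) * ((((HM G (HG (cl N))).card : ℝ) / (N:ℝ) ^ Fintype.card V + (Fintype.card V : ℝ) ^ 2 / N) * (N:ℝ) ^ Fintype.card V)
        = N * (HM G (HG (cl N))).card + (Fintype.card V : ℝ) ^ 2 * (N:ℝ) ^ Fintype.card V := by
      field_simp
    rw [← h6] at h5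
    exact le_of_mul_le_mul_left h5 hN'
  · filter_upwards [eventually_gt_atTop 0] with N hN
    apply div_le_div_of_nonneg_right _ (by positivity)
    exact_mod_cast card_le_card (HM_sub_LH G (cl N))

/-- edge density -/
noncomputable def ed (n : ℕ) (H : SimpleGraph (Fin n)) : ℝ := (EE H : ℝ) / (n : ℝ) ^ 2

lemma ed_mono {n : ℕ} {H H' : SimpleGraph (Fin n)} (h : H ≤ H') : ed n H ≤ ed n H' := by
  unfold ed
  apply div_le_div_of_nonneg_right _ (by positivity)
  exact_mod_cast EE_mono h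

lemma ed_eq_hd (n : ℕ) (H : SimpleGraph (Fin n)) : ed n H = hd (⊤ : SimpleGraph (Fin 2)) n H := by
  unfold ed hd
  rw [EE_eq, Fintype.card_fin]
  push_cast
  rfl

lemma cnt_nonneg {n : ℕ} (cl : Fin n → Cls) (c : Cls) : 0 ≤ cnt cl c := by
  unfold cnt; positivity

lemma cnt_le {n : ℕ} (cl : Fin n → Cls) (c : Cls) : cnt cl c ≤ n := by
  unfold cnt
  have := card_le_univ ((univ : Finset (Fin n)).filter (fun i => cl i = c))
  rw [Fintype.card_fin] at this
  exact_mod_cast this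

lemma prod_close {a b c d e : ℝ} (ha : |a| ≤ 1) (hd : |d| ≤ 1) (h1 : |a - c| ≤ e)
    (h2 : |b - d| ≤ e) : |a * b - c * d| ≤ 2 * e := by
  have h3 : a * b - c * d = a * (b - d) + (a - c) * d := by ring
  rw [h3]
  have h4 := abs_add_le (a * (b - d)) ((a - c) * d)
  rw [abs_mul, abs_mul] at h4
  have he : 0 ≤ e := (abs_nonneg _).trans h1
  have h5 : |a| * |b - d| ≤ 1 * e := mul_le_mul ha h2 (abs_nonneg _) (by norm_num)
  have h6 : |a - c| * |d| ≤ e * 1 := mul_le_mul h1 hd (abs_nonneg _) he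
  linarith

lemma egy_close {u w : Cls → ℝ} {e : ℝ} (hu : ∀ c, |u c| ≤ 1) (hw : ∀ c, |w c| ≤ 1)
    (h : ∀ c, |u c - w c| ≤ e) : |egy u - egy w| ≤ 12 * e := by
  have p1 := prod_close (hu .R) (hw .R) (h .R) (h .R)
  have p2 := prod_close (hu .R) (hw .B) (h .R) (h .B)
  have p3 := prod_close (hu .R) (hw .Y) (h .R) (h .Y)
  have p4 := prod_close (hu .Y) (hw .Y) (h .Y) (h .Y)
  have h3 : egy u - egy w = (u .R * u .R - w .R * w .R) + 2 * (u .R * u .B - w .R * w .B) +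
      2 * (u .R * u .Y - w .R * w .Y) + (u .Y * u .Y - w .Y * w .Y) := by
    unfold egy; ring
  rw [h3, abs_le]
  rw [abs_le] at p1 p2 p3 p4
  constructor <;> linarith

/-- the edge density of a class graph -/
theorem ed_class {n : ℕ} (hn : 0 < n) {cl : Fin n → Cls} {w : Cls → ℝ} {K : ℝ}
    (hw : ∀ c, |w c| ≤ 1) (h : ∀ c, |cnt cl c / (n : ℝ) - w c| ≤ K / n) :
    |ed n (HG cl) - egy w| ≤ (12 * K + 4) / n := by
  have hn' : (0:ℝ) < n := by exact_mod_cast hn
  have h1 : |egy (fun c => cnt cl c / (n:ℝ)) - egy w| ≤ 12 * (K / n) := by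
    apply egy_close _ hw h
    intro c
    rw [abs_of_nonneg (div_nonneg (cnt_nonneg cl c) hn'.le), div_le_one hn']
    exact cnt_le cl c
  have h2 := LH_bound (⊤ : SimpleGraph (Fin 2)) cl
  have h3 := card_le_card (HM_sub_LH (⊤ : SimpleGraph (Fin 2)) cl)
  have h4 := LH_card (⊤ : SimpleGraph (Fin 2)) cl
  rw [tval_K2] at h4
  rw [Fintype.card_fin, Fintype.card_fin] at h2
  have h5 : egy (cnt cl) = (n:ℝ) ^ 2 * egy (fun c => cnt cl c / (n:ℝ)) := by
    unfold egy; field_simp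
  have h6 : (EE (HG cl) : ℝ) = ((HM (⊤ : SimpleGraph (Fin 2)) (HG cl)).card : ℝ) := by
    rw [EE_eq]; push_cast; rfl
  have h7 : (n:ℝ) * ((LH (⊤ : SimpleGraph (Fin 2)) cl).card : ℝ) ≤ n * (EE (HG cl) : ℝ) + 2 ^ 2 * (n:ℝ) ^ 2 := by
    rw [h6]; exact_mod_cast h2
  have h8 : (EE (HG cl) : ℝ) ≤ ((LH (⊤ : SimpleGraph (Fin 2)) cl).card : ℝ) := by
    rw [h6]; exact_mod_cast h3
  rw [h4, h5] at h7 h8
  have h9 : ed n (HG cl) ≤ egy (fun c => cnt cl c / (n:ℝ)) := by
    unfold ed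
    rw [div_le_iff₀ (by positivity)]
    linarith
  have h10 : egy (fun c => cnt cl c / (n:ℝ)) - 4 / n ≤ ed n (HG cl) := by
    unfold ed
    rw [le_div_iff₀ (by positivity)]
    have h11 : (n:ℝ) * ((egy (fun c => cnt cl c / (n:ℝ)) - 4 / n) * (n:ℝ) ^ 2) ≤ n * (EE (HG cl) : ℝ) := by
      have : (n:ℝ) * ((egy (fun c => cnt cl c / (n:ℝ)) - 4 / n) * (n:ℝ) ^ 2) =
        n * ((n:ℝ) ^ 2 * egy (fun c => cnt cl c / (n:ℝ))) - 4 * (n:ℝ) ^ 2 := by
        field_simp
      rw [this]; linarith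
    exact le_of_mul_le_mul_left h11 hn'
  have h12 : (12 * K + 4) / (n:ℝ) = 12 * (K / n) + 4 / n := by ring
  rw [h12, abs_le]
  rw [abs_le] at h1
  have : 0 ≤ 4 / (n:ℝ) := by positivity
  constructor <;> linarith

lemma ed_ncard (n : ℕ) (H : SimpleGraph (Fin n)) :
    ed n H = 2 * (H.edgeSet.ncard : ℝ) / (n : ℝ) ^ 2 := by
  unfold ed
  rw [EE_ncard]
  push_cast
  rfl

end Pool.Agent.W154.STK
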